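import Mathlib

/-! Simplicial sets are locally cartesian closed. -/

namespace Pool.Agent.Lib.MP_339d31_lc

open CategoryTheory Limits MonoidalCategory

attribute [local instance] Over.cartesianMonoidalCategory Over.braidedCategory

/-- Slices of simplicial sets are cartesian closed. -/
@[reducible] noncomputable def overClosed (X : SSet.{0}) : MonoidalClosed (Over X) :=
  cartesianClosedOfEquiv (overEquivPresheafCostructuredArrow X).symm

/-- The functor `A × -` on a slice of simplicial sets has a right adjoint. -/
instance prodLeftAdjoint {X : SSet.{0}} (A : Over X) : (prod.functor.obj A).IsLeftAdjoint := by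
  let _ := overClosed X
  have : (tensorLeft A).IsLeftAdjoint := (ihom.adjunction A).isLeftAdjoint
  exact Functor.isLeftAdjoint_of_iso (CartesianMonoidalCategory.tensorLeftIsoProd A)

/-- Pullback along a map of simplicial sets has a right adjoint. -/
instance pullbackLeftAdjoint {X Y : SSet.{0}} (p : X ⟶ Y) : (Over.pullback p).IsLeftAdjoint := by
  let _ := overClosed Y
  let _ : ChosenPullbacksAlong (curryRightUnitorHom (Over.mk p)) :=
    ChosenPullbacksAlong.ofHasPullbacksAlong _
  have h1 : (toOver (Over.mk p)).IsLeftAdjoint := (Over.toOverSectionsAdj (Over.mk p)).isLeftAdjoint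
  have h2 : (toOver (Over.mk p) ⋙ (Over.mk p).iteratedSliceForward).IsLeftAdjoint :=
    ⟨_, ⟨(Adjunction.ofIsLeftAdjoint (toOver (Over.mk p))).comp
      (Over.mk p).iteratedSliceEquiv.toAdjunction⟩⟩
  have e : toOver (Over.mk p) ⋙ (Over.mk p).iteratedSliceForward ≅ Over.pullback p :=
    conjugateIsoEquiv ((Over.mk p).iteratedSliceEquiv.symm.toAdjunction.comp (forgetAdjToOver _))
      (Over.mapPullbackAdj p) (eqToIso (Over.iteratedSliceBackward_forget (Over.mk p))).symm
  exact Functor.isLeftAdjoint_of_iso e

end Pool.Agent.Lib.MP_339d31_lc
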