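import Mathlib
import Pool.Agent.Lib.MP_339d31_lc.LCC

/-! First-order homotopical semantics for the one-sorted signature without function symbols. -/

namespace Pool.Agent.Lib.MP_339d31_lc

open CategoryTheory Limits MonoidalCategory CartesianMonoidalCategory

/-- Formulas in the context of `n` variables (the quantifiers bind the last variable). -/
inductive Fml : ℕ → Type
  | top {n : ℕ} : Fml n
  | bot {n : ℕ} : Fml n
  | eq {n : ℕ} (i j : Fin n) : Fml n
  | and {n : ℕ} (φ ψ : Fml n) : Fml n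
  | or {n : ℕ} (φ ψ : Fml n) : Fml n
  | imp {n : ℕ} (φ ψ : Fml n) : Fml n
  | all {n : ℕ} (φ : Fml (n + 1)) : Fml n
  | ex {n : ℕ} (φ : Fml (n + 1)) : Fml n

/-- The power `S ^ n`. -/
noncomputable def pow (S : SSet.{0}) : ℕ → SSet.{0}
  | 0 => 𝟙_ SSet.{0}
  | n + 1 => pow S n ⊗ S

/-- The projections `S ^ n ⟶ S`. -/
noncomputable def proj (S : SSet.{0}) : (n : ℕ) → Fin n → (pow S n ⟶ S)
  | 0 => fun i => i.elim0
  | n + 1 => fun i =>
      Fin.lastCases (motive := fun _ => pow S n ⊗ S ⟶ S) (snd (pow S n) S)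
        (fun j => fst (pow S n) S ≫ proj S n j) i

/-- Evaluation `S ^ Δ[1] ⟶ S` at the vertex `k` of `Δ[1]`. -/
noncomputable def evalAt (S : SSet.{0}) (k : Fin 2) :
    (ihom (SSet.stdSimplex.obj (SimplexCategory.mk 1))).obj S ⟶ S :=
  lift (SSet.const (SSet.stdSimplex.obj₀Equiv.symm k)) (𝟙 _) ≫
    (ihom.ev (SSet.stdSimplex.obj (SimplexCategory.mk 1))).app S

/-- The interpretation of a formula in `n` variables as an object over `S ^ n`. -/
noncomputable def interp (S : SSet.{0}) : {n : ℕ} → Fml n → Over (pow S n)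
  | _, .top => Over.mk (𝟙 _)
  | _, .bot => ⊥_ _
  | n, .eq i j => (Over.pullback (lift (proj S n i) (proj S n j))).obj
      (Over.mk (lift (evalAt S 0) (evalAt S 1)))
  | _, .and φ ψ => interp S φ ⨯ interp S ψ
  | _, .or φ ψ => interp S φ ⨿ interp S ψ
  | _, .imp φ ψ => (prod.functor.obj (interp S φ)).rightAdjoint.obj (interp S ψ)
  | n, .all φ => (Over.pullback (fst (pow S n) S)).rightAdjoint.obj (interp S φ)
  | n, .ex φ => (Over.map (fst (pow S n) S)).obj (interp S φ)

/-- A sentence is true in the space `X` when its interpretation in `Sing X` is nonempty. -/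
def TrueIn (X : TopCat.{0}) (φ : Fml 0) : Prop :=
  (interp (TopCat.toSSet.obj X) φ).left.Nonempty

end Pool.Agent.Lib.MP_339d31_lc
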