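import Mathlib
import Pool.Agent.Lib.MP_339d31_lc.Defs

-- part Pool.Agent.Lib.MP_339d31_lc.Forcing
section

/-! Kripke-Joyal style clauses for the homotopical semantics. -/

namespace Pool.Agent.Lib.MP_339d31_lc

open CategoryTheory Limits MonoidalCategory CartesianMonoidalCategory Opposite Simplicial

/-- `f` lifts to `A`. -/
def Lifts {X Z : SSet.{0}} (A : Over X) (f : Z ⟶ X) : Prop := ∃ g : Z ⟶ A.left, g ≫ A.hom = f

section

variable {X Z : SSet.{0}}

theorem lifts_iff (A : Over X) (f : Z ⟶ X) : Lifts A f ↔ Nonempty (Over.mk f ⟶ A) :=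
  ⟨fun ⟨g, hg⟩ => ⟨Over.homMk g hg⟩, fun ⟨g⟩ => ⟨g.left, Over.w g⟩⟩

theorem Lifts.comp {A : Over X} {f : Z ⟶ X} (h : Lifts A f) {Z' : SSet.{0}} (π : Z' ⟶ Z) :
    Lifts A (π ≫ f) := by
  obtain ⟨g, hg⟩ := h
  exact ⟨π ≫ g, by rw [Category.assoc, hg]⟩

theorem Lifts.map {A B : Over X} {f : Z ⟶ X} (h : Lifts A f) (k : A ⟶ B) : Lifts B f := by
  obtain ⟨g, hg⟩ := h
  exact ⟨g ≫ k.left, by rw [Category.assoc, Over.w, hg]⟩

theorem lifts_top (f : Z ⟶ X) : Lifts (Over.mk (𝟙 X)) f := ⟨f, Category.comp_id f⟩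

/-- The empty simplicial set. -/
def emptyS : SSet.{0} := (Functor.const _).obj PEmpty

/-- The map from the empty simplicial set. -/
def emptyTo (X : SSet.{0}) : emptyS ⟶ X where
  app _ := ↾fun x => PEmpty.elim x
  naturality _ _ _ := by ext x; exact PEmpty.elim x

theorem not_lifts_bot (f : Z ⟶ X) (hZ : Z.Nonempty) : ¬ Lifts (⊥_ (Over X)) f := by
  intro h
  obtain ⟨g, -⟩ := h.map (initial.to (Over.mk (emptyTo X)))
  obtain ⟨z⟩ := hZ
  exact PEmpty.elim (g.app _ z)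

theorem lifts_prod (A B : Over X) (f : Z ⟶ X) : Lifts (A ⨯ B) f ↔ Lifts A f ∧ Lifts B f := by
  constructor
  · intro h
    exact ⟨h.map prod.fst, h.map prod.snd⟩
  · simp only [lifts_iff]
    rintro ⟨⟨g⟩, ⟨k⟩⟩
    exact ⟨prod.lift g k⟩

theorem lifts_imp (A B : Over X) (f : Z ⟶ X) :
    Lifts ((prod.functor.obj A).rightAdjoint.obj B) f ↔
      ∀ (Z' : SSet.{0}) (π : Z' ⟶ Z), Lifts A (π ≫ f) → Lifts B (π ≫ f) := by
  rw [lifts_iff, ← ((Adjunction.ofIsLeftAdjoint (prod.functor.obj A)).homEquiv _ _).nonempty_congr]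
  constructor
  · rintro ⟨h⟩ Z' π hA
    obtain ⟨g⟩ := (lifts_iff _ _).1 hA
    exact (lifts_iff _ _).2 ⟨prod.lift g (Over.homMk π : Over.mk (π ≫ f) ⟶ Over.mk f) ≫ h⟩
  · intro h
    have e : (prod.snd : A ⨯ Over.mk f ⟶ Over.mk f).left ≫ f = (A ⨯ Over.mk f).hom :=
      Over.w (prod.snd : A ⨯ Over.mk f ⟶ Over.mk f)
    obtain ⟨g, hg⟩ := h _ (prod.snd : A ⨯ Over.mk f ⟶ Over.mk f).left
      ⟨(prod.fst : A ⨯ Over.mk f ⟶ A).left, by rw [e]; exact Over.w _⟩
    exact ⟨Over.homMk g (hg.trans e)⟩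

theorem lifts_pullback {Y : SSet.{0}} (p : X ⟶ Y) (A : Over Y) (f : Z ⟶ X) :
    Lifts ((Over.pullback p).obj A) f ↔ Lifts A (f ≫ p) := by
  rw [lifts_iff, ← ((Over.mapPullbackAdj p).homEquiv _ _).nonempty_congr, lifts_iff]
  rfl

theorem lifts_all (S : SSet.{0}) (A : Over (X ⊗ S)) (f : Z ⟶ X) :
    Lifts ((Over.pullback (fst X S)).rightAdjoint.obj A) f ↔
      ∀ (Z' : SSet.{0}) (π : Z' ⟶ Z) (g : Z' ⟶ S), Lifts A (lift (π ≫ f) g) := by
  rw [lifts_iff,
    ← ((Adjunction.ofIsLeftAdjoint (Over.pullback (fst X S))).homEquiv _ _).nonempty_congr]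
  constructor
  · rintro ⟨h⟩ Z' π g
    refine Lifts.map ?_ h
    rw [lifts_pullback]
    exact ⟨π, by simp⟩
  · intro h
    obtain ⟨g, hg⟩ := h _ (pullback.fst f (fst X S)) (pullback.snd f (fst X S) ≫ snd X S)
    refine ⟨Over.homMk g (hg.trans ?_)⟩
    apply CartesianMonoidalCategory.hom_ext
    · simp [pullback.condition]
    · simp

theorem lifts_ex (S : SSet.{0}) (A : Over (X ⊗ S)) (f : Z ⟶ X) :
    Lifts ((Over.map (fst X S)).obj A) f ↔ ∃ g : Z ⟶ S, Lifts A (lift f g) := by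
  constructor
  · rintro ⟨k, hk⟩
    refine ⟨k ≫ A.hom ≫ snd X S, k, ?_⟩
    apply CartesianMonoidalCategory.hom_ext
    · simpa using hk
    · simp
  · rintro ⟨g, k, hk⟩
    refine ⟨k, ?_⟩
    change k ≫ A.hom ≫ fst X S = f
    rw [← Category.assoc, hk, lift_fst]

/-- Simplicial homotopy. -/
def Htpy {S : SSet.{0}} (f g : Z ⟶ S) : Prop :=
  ∃ H : Z ⊗ Δ[1] ⟶ S, SSet.ι₀ ≫ H = f ∧ SSet.ι₁ ≫ H = g

theorem comp_evalAt {S : SSet.{0}} (k : Fin 2) (h : Z ⟶ (ihom (Δ[1] : SSet.{0})).obj S) :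
    h ≫ evalAt S k = lift (𝟙 Z) (SSet.const (SSet.stdSimplex.obj₀Equiv.symm k)) ≫
      (β_ Z Δ[1]).hom ≫ MonoidalClosed.uncurry h := by
  rw [MonoidalClosed.uncurry_eq, evalAt]
  simp only [← Category.assoc]
  congr 1

theorem lifts_path {S : SSet.{0}} (f g : Z ⟶ S) :
    Lifts (Over.mk (lift (evalAt S 0) (evalAt S 1))) (lift f g) ↔ Htpy f g := by
  constructor
  · rintro ⟨h, hh⟩
    refine ⟨(β_ Z Δ[1]).hom ≫ MonoidalClosed.uncurry h, ?_, ?_⟩
    · have := hh =≫ fst _ _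
      simp only [Over.mk_hom, Category.assoc, lift_fst] at this
      rw [← this]
      exact (comp_evalAt 0 h).symm
    · have := hh =≫ snd _ _
      simp only [Over.mk_hom, Category.assoc, lift_snd] at this
      rw [← this]
      exact (comp_evalAt 1 h).symm
  · rintro ⟨H, h0, h1⟩
    refine ⟨MonoidalClosed.curry ((β_ Δ[1] Z).hom ≫ H), ?_⟩
    apply CartesianMonoidalCategory.hom_ext
    · simp only [Over.mk_hom, Category.assoc, lift_fst]
      rw [comp_evalAt, MonoidalClosed.uncurry_curry, SymmetricCategory.symmetry_assoc]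
      exact h0
    · simp only [Over.mk_hom, Category.assoc, lift_snd]
      rw [comp_evalAt, MonoidalClosed.uncurry_curry, SymmetricCategory.symmetry_assoc]
      exact h1

end

section Components

variable {X Z : SSet.{0}}

/-- The vertex number `i` of a simplex. -/
def vtx {m : SimplexCategoryᵒᵖ} (z : Z.obj m) (i : Fin (m.unop.len + 1)) : Z _⦋0⦌ :=
  Z.map (SimplexCategory.const ⦋0⦌ m.unop i).op z

theorem vtx_map {m m' : SimplexCategoryᵒᵖ} (θ : m ⟶ m') (z : Z.obj m) (i : Fin (m'.unop.len + 1)) :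
    vtx (Z.map θ z) i = vtx z (θ.unop.toOrderHom i) := by
  rw [vtx, vtx, ← Functor.map_comp_apply]
  rfl

theorem vtx_zero (z : Z _⦋0⦌) (i : Fin 1) : vtx z i = z := by
  rw [vtx, SimplexCategory.hom_zero_zero (SimplexCategory.const _ _ _)]
  simp

theorem δ_one_eq_vtx (e : Z _⦋1⦌) : Z.δ 1 e = vtx e 0 := by
  rw [vtx, SimplicialObject.δ, SimplexCategory.δ_one_eq_const]

theorem δ_zero_eq_vtx (e : Z _⦋1⦌) : Z.δ 0 e = vtx e 1 := by
  rw [vtx, SimplicialObject.δ, SimplexCategory.δ_zero_eq_const]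

/-- Connected and nonempty. -/
def Conn (Z : SSet.{0}) : Prop :=
  Z.Nonempty ∧ ∀ P : Z _⦋0⦌ → Prop, (∀ e : Z _⦋1⦌, P (Z.δ 1 e) ↔ P (Z.δ 0 e)) → ∀ x y, P x → P y

theorem Conn.const {T : Type} (hZ : Conn Z) (φ : Z _⦋0⦌ → T)
    (h : ∀ e : Z _⦋1⦌, φ (Z.δ 1 e) = φ (Z.δ 0 e)) (x y : Z _⦋0⦌) : φ x = φ y :=
  hZ.2 (fun w => φ x = φ w) (fun e => by rw [h e]) x y rfl

theorem vtx_const {T : Type} (φ : Z _⦋0⦌ → T) (h : ∀ e : Z _⦋1⦌, φ (Z.δ 1 e) = φ (Z.δ 0 e))
    {m : SimplexCategoryᵒᵖ} (z : Z.obj m) (i : Fin (m.unop.len + 1)) :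
    φ (vtx z i) = φ (vtx z 0) := by
  obtain ⟨⟨m⟩⟩ := m
  have := h (Z.map (SimplexCategory.mkOfLe 0 i (Fin.zero_le i)).op z)
  rw [δ_one_eq_vtx, δ_zero_eq_vtx, vtx_map, vtx_map] at this
  exact this.symm

theorem cls_edge (e : Z _⦋1⦌) : SSet.π₀.mk (Z.δ 1 e) = SSet.π₀.mk (Z.δ 0 e) :=
  SSet.π₀.sound (SSet.Edge.mk' e)

theorem cls_map {m m' : SimplexCategoryᵒᵖ} (θ : m ⟶ m') (z : Z.obj m) :
    SSet.π₀.mk (vtx (Z.map θ z) 0) = SSet.π₀.mk (vtx z 0) := by
  rw [vtx_map]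
  exact vtx_const _ cls_edge z _

/-- A connected component. -/
def cpt (c : SSet.π₀ Z) : Z.Subcomplex where
  obj _ := {z | SSet.π₀.mk (vtx z 0) = c}
  map θ z hz := (cls_map θ z).trans hz

theorem conn_cpt (c : SSet.π₀ Z) : Conn (cpt c).toSSet := by
  obtain ⟨v, rfl⟩ := c.mk_surjective
  refine ⟨⟨⟨v, congrArg _ (vtx_zero v 0)⟩⟩, ?_⟩
  intro P hP x y hx
  let Q : Z _⦋0⦌ → Prop := fun w => ∃ h : w ∈ (cpt (SSet.π₀.mk v)).obj (op ⦋0⦌), P ⟨w, h⟩
  have hQ : ∀ e : Z _⦋1⦌, Q (Z.δ 1 e) = Q (Z.δ 0 e) := by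
    intro e
    apply propext
    constructor
    · rintro ⟨h, hw⟩
      have he : e ∈ (cpt (SSet.π₀.mk v)).obj (op ⦋1⦌) := (cls_map _ e).symm.trans h
      exact ⟨_, (hP ⟨e, he⟩).1 hw⟩
    · rintro ⟨h, hw⟩
      have he : e ∈ (cpt (SSet.π₀.mk v)).obj (op ⦋1⦌) := (cls_map _ e).symm.trans h
      exact ⟨_, (hP ⟨e, he⟩).2 hw⟩
  let Q' : SSet.π₀ Z → Prop := SSet.π₀.lift Q (fun a b e => by
    have := hQ e.edge
    rwa [e.src_eq, e.tgt_eq] at this)
  have h1 : SSet.π₀.mk x.1 = SSet.π₀.mk y.1 := by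
    have hx' : SSet.π₀.mk (vtx x.1 0) = SSet.π₀.mk v := x.2
    have hy' : SSet.π₀.mk (vtx y.1 0) = SSet.π₀.mk v := y.2
    rw [vtx_zero] at hx' hy'
    exact hx'.trans hy'.symm
  have h2 : Q' (SSet.π₀.mk x.1) := ⟨x.2, hx⟩
  rw [h1] at h2
  obtain ⟨_, h3⟩ := h2
  exact h3

/-- Lifting is local on connected components. -/
theorem lifts_of_cpt (A : Over X) (f : Z ⟶ X) (h : ∀ c : SSet.π₀ Z, Lifts A ((cpt c).ι ≫ f)) :
    Lifts A f := by
  choose g hg using h
  have key : ∀ (c c' : SSet.π₀ Z) (_ : c = c') (m : SimplexCategoryᵒᵖ) (z : Z.obj m)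
      (h1 : z ∈ (cpt c).obj m) (h2 : z ∈ (cpt c').obj m),
      (g c).app m ⟨z, h1⟩ = (g c').app m ⟨z, h2⟩ := by
    rintro c _ rfl m z h1 h2
    rfl
  refine ⟨{ app := fun m => ↾fun z => (g (SSet.π₀.mk (vtx z 0))).app m ⟨z, rfl⟩
            naturality := ?_ }, ?_⟩
  · intro m m' θ
    ext z
    have := NatTrans.naturality_apply (g (SSet.π₀.mk (vtx z 0))) θ ⟨z, rfl⟩
    exact (key _ _ (cls_map θ z) m' _ rfl (cls_map θ z)).trans this
  · ext m z
    exact ConcreteCategory.congr_hom (NatTrans.congr_app (hg (SSet.π₀.mk (vtx z 0))) m) ⟨z, rfl⟩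

/-- The levelwise disjoint union. -/
def sumS (A B : SSet.{0}) : SSet.{0} where
  obj m := A.obj m ⊕ B.obj m
  map θ := ↾(Sum.map (A.map θ) (B.map θ))
  map_id m := by ext (a | b) <;> simp
  map_comp θ θ' := by ext (a | b) <;> simp

/-- The left inclusion. -/
def sumInl (A B : SSet.{0}) : A ⟶ sumS A B where
  app _ := ↾Sum.inl

/-- The right inclusion. -/
def sumInr (A B : SSet.{0}) : B ⟶ sumS A B where
  app _ := ↾Sum.inr

/-- Maps out of the disjoint union. -/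
def sumDesc {A B : SSet.{0}} (a : A ⟶ X) (b : B ⟶ X) : sumS A B ⟶ X where
  app m := ↾(Sum.elim (a.app m) (b.app m))
  naturality m m' θ := by
    ext (x | x)
    · exact NatTrans.naturality_apply a θ x
    · exact NatTrans.naturality_apply b θ x

theorem isLeft_map {A B : SSet.{0}} {m m' : SimplexCategoryᵒᵖ} (θ : m ⟶ m')
    (x : (sumS A B).obj m) : Sum.isLeft ((sumS A B).map θ x) = Sum.isLeft x := by
  rcases x with x | x <;> rfl

theorem lifts_coprod (hZ : Conn Z) (A B : Over X) (f : Z ⟶ X) :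
    Lifts (A ⨿ B) f ↔ Lifts A f ∨ Lifts B f := by
  constructor
  · intro h
    obtain ⟨g, hg⟩ := h.map (coprod.desc
      (Over.homMk (sumInl A.left B.left) : A ⟶ Over.mk (sumDesc A.hom B.hom))
      (Over.homMk (sumInr A.left B.left) : B ⟶ Over.mk (sumDesc A.hom B.hom)))
    change Z ⟶ sumS A.left B.left at g
    have hv : ∀ (m : SimplexCategoryᵒᵖ) (z : Z.obj m),
        Sum.isLeft (g.app m z) = Sum.isLeft (g.app _ (vtx z 0)) := by
      intro m z
      rw [vtx, NatTrans.naturality_apply, isLeft_map]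
    have hc : ∀ x y : Z _⦋0⦌, Sum.isLeft (g.app _ x) = Sum.isLeft (g.app _ y) := by
      refine hZ.const _ fun e => ?_
      rw [SimplicialObject.δ, SimplicialObject.δ, NatTrans.naturality_apply,
        NatTrans.naturality_apply, isLeft_map, isLeft_map]
    obtain ⟨v⟩ := hZ.1
    have hall : ∀ (m : SimplexCategoryᵒᵖ) (z : Z.obj m),
        Sum.isLeft (g.app m z) = Sum.isLeft (g.app _ v) := fun m z => (hv m z).trans (hc _ _)
    have hf : ∀ (m : SimplexCategoryᵒᵖ) (z : Z.obj m),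
        Sum.elim (A.hom.app m) (B.hom.app m) (g.app m z) = f.app m z := fun m z =>
      ConcreteCategory.congr_hom (NatTrans.congr_app hg m) z
    cases hb : Sum.isLeft (g.app _ v) with
    | true =>
      have : ∀ (m : SimplexCategoryᵒᵖ) (z : Z.obj m), ∃ a, g.app m z = Sum.inl a :=
        fun m z => Sum.isLeft_iff.1 ((hall m z).trans hb)
      choose k hk using this
      refine Or.inl ⟨{ app := fun m => ↾(k m), naturality := ?_ }, ?_⟩
      · intro m m' θ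
        ext z
        have := NatTrans.naturality_apply g θ z
        rw [hk, hk] at this
        exact Sum.inl_injective this
      · ext m z
        have := hf m z
        rw [hk] at this
        exact this
    | false =>
      have : ∀ (m : SimplexCategoryᵒᵖ) (z : Z.obj m), ∃ a, g.app m z = Sum.inr a :=
        fun m z => Sum.isRight_iff.1 (Sum.isLeft_eq_false.1 ((hall m z).trans hb))
      choose k hk using this
      refine Or.inr ⟨{ app := fun m => ↾(k m), naturality := ?_ }, ?_⟩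
      · intro m m' θ
        ext z
        have := NatTrans.naturality_apply g θ z
        rw [hk, hk] at this
        exact Sum.inr_injective this
      · ext m z
        have := hf m z
        rw [hk] at this
        exact this
  · rintro (h | h)
    · exact h.map coprod.inl
    · exact h.map coprod.inr

end Components

end Pool.Agent.Lib.MP_339d31_lc
end

-- part Pool.Agent.Lib.MP_339d31_lc.Killing
section

/-! Cochains mod 2 and the killing lemma in degrees one and two. -/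

namespace Pool.Agent.Lib.MP_339d31_lc

open CategoryTheory Opposite Simplicial

/-- The field with two elements. -/
abbrev F := ZMod 2

section

variable {Z : SSet.{0}} {V : Type} [AddCommGroup V] {p : ℕ}

/-- The coboundary (mod 2). -/
def cob (κ : Z _⦋p⦌ → V) (z : Z _⦋p + 1⦌) : V := ∑ i : Fin (p + 2), κ (Z.δ i z)

/-- Coboundaries. -/
def IsCob (μ : Z _⦋p + 1⦌ → V) : Prop := ∃ κ : Z _⦋p⦌ → V, ∀ z, μ z = cob κ z

/-- Cocycles. -/
def IsCoc (g : Z _⦋p⦌ → V) : Prop := ∀ z, cob g z = 0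

theorem cob_comp {Z' : SSet.{0}} (π : Z' ⟶ Z) (κ : Z _⦋p⦌ → V) (z : Z' _⦋p + 1⦌) :
    cob (fun x => κ (π.app _ x)) z = cob κ (π.app _ z) := by
  simp only [cob, SSet.δ_naturality_apply]

theorem IsCob.comp {μ : Z _⦋p + 1⦌ → V} (h : IsCob μ) {Z' : SSet.{0}} (π : Z' ⟶ Z) :
    IsCob (fun x => μ (π.app _ x)) := by
  obtain ⟨κ, hκ⟩ := h
  exact ⟨fun x => κ (π.app _ x), fun z => by rw [cob_comp]; exact hκ _⟩

theorem IsCoc.comp {g : Z _⦋p⦌ → V} (h : IsCoc g) {Z' : SSet.{0}} (π : Z' ⟶ Z) :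
    IsCoc (fun x => g (π.app _ x)) := fun z => by rw [cob_comp, h]

theorem IsCob.add {μ ν : Z _⦋p + 1⦌ → V} (h : IsCob μ) (h' : IsCob ν) :
    IsCob (fun z => μ z + ν z) := by
  obtain ⟨κ, hκ⟩ := h
  obtain ⟨κ', hκ'⟩ := h'
  exact ⟨fun x => κ x + κ' x, fun z => by simp only [hκ, hκ', cob, Finset.sum_add_distrib]⟩

theorem IsCob.zero : IsCob (fun _ : Z _⦋p + 1⦌ => (0 : V)) := ⟨fun _ => 0, fun z => by simp [cob]⟩

theorem IsCob.map {W : Type} [AddCommGroup W] {μ : Z _⦋p + 1⦌ → V} (h : IsCob μ) (L : V →+ W) :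
    IsCob (fun z => L (μ z)) := by
  obtain ⟨κ, hκ⟩ := h
  exact ⟨fun x => L (κ x), fun z => by simp only [hκ, cob, map_sum]⟩

theorem IsCob.congr {μ ν : Z _⦋p + 1⦌ → V} (h : IsCob μ) (e : ∀ z, μ z = ν z) : IsCob ν := by
  obtain ⟨κ, hκ⟩ := h
  exact ⟨κ, fun z => by rw [← e, hκ]⟩

/-- The twisted product on which `g` becomes a coboundary. -/
def tw (g : Z _⦋p + 1⦌ → V) : SSet.{0} where
  obj m := {q : Z.obj m × ((⦋p⦌ ⟶ m.unop) → V) //
    ∀ θ : ⦋p + 1⦌ ⟶ m.unop, ∑ i : Fin (p + 2), q.2 (SimplexCategory.δ i ≫ θ) = g (Z.map θ.op q.1)}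
  map θ := ↾fun q => ⟨(Z.map θ q.1.1, fun η => q.1.2 (η ≫ θ.unop)), fun η => by
    have := q.2 (η ≫ θ.unop)
    simp only [op_comp, Quiver.Hom.op_unop, Functor.map_comp_apply] at this
    simpa only [Category.assoc] using this⟩
  map_id m := by ext q : 3; apply Subtype.ext; simp
  map_comp θ θ' := by ext q : 3; apply Subtype.ext; simp

/-- The projection of the twisted product. -/
def twπ (g : Z _⦋p + 1⦌ → V) : tw g ⟶ Z where
  app _ := ↾fun q => q.1.1

theorem tw_δ_fst (g : Z _⦋p + 1⦌ → V) {m : ℕ} (i : Fin (m + 2)) (q : tw g _⦋m + 1⦌) :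
    ((tw g).δ i q).1.1 = Z.δ i q.1.1 := rfl

theorem tw_δ_snd (g : Z _⦋p + 1⦌ → V) {m : ℕ} (i : Fin (m + 2)) (q : tw g _⦋m + 1⦌)
    (η : ⦋p⦌ ⟶ ⦋m⦌) : ((tw g).δ i q).1.2 η = q.1.2 (η ≫ SimplexCategory.δ i) := rfl

theorem tw_cob (g : Z _⦋p + 1⦌ → V) (q : tw g _⦋p + 1⦌) :
    g q.1.1 = cob (Z := tw g) (fun w => w.1.2 (𝟙 _)) q := by
  have := q.2 (𝟙 _)
  simp only [Category.comp_id, op_id, Functor.map_id_apply] at this
  rw [← this, cob]
  simp only [tw_δ_snd, Category.id_comp]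

/-- The cone on a simplex with apex `0`. -/
def cone {k m : ℕ} (η : ⦋k⦌ ⟶ ⦋m⦌) : ⦋k + 1⦌ ⟶ ⦋m⦌ :=
  SimplexCategory.mkHom
    ⟨fun j => Fin.cases (motive := fun _ => Fin (m + 1)) 0 (fun i => η.toOrderHom i) j, by
      rw [Fin.monotone_iff_le_succ]
      intro j
      refine Fin.cases ?_ (fun i => ?_) j
      · simp
      · rw [← Fin.succ_castSucc]
        simp only [Fin.cases_succ]
        exact η.toOrderHom.monotone (Fin.castSucc_le_succ i)⟩

theorem δ_zero_cone {k m : ℕ} (η : ⦋k⦌ ⟶ ⦋m⦌) : SimplexCategory.δ 0 ≫ cone η = η := by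
  ext j : 3
  rfl

theorem δ_succ_cone {k m : ℕ} (η : ⦋k + 1⦌ ⟶ ⦋m⦌) (i : Fin (k + 2)) :
    SimplexCategory.δ i.succ ≫ cone η = cone (SimplexCategory.δ i ≫ η) := by
  ext j : 3
  change (cone η).toOrderHom (i.succ.succAbove j) = (cone (SimplexCategory.δ i ≫ η)).toOrderHom j
  refine Fin.cases ?_ (fun l => ?_) j
  · rw [Fin.succ_succAbove_zero]; rfl
  · rw [Fin.succ_succAbove_succ]; rfl

variable [Module F V]

theorem add_self (x : V) : x + x = 0 := by
  rw [← two_smul F x]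
  exact (congrArg (· • x) (by decide : (2 : F) = 0)).trans (zero_smul _ _)

theorem cone_spec {g : Z _⦋p + 1⦌ → V} (hg : IsCoc g) {m : ℕ} (z : Z _⦋m⦌) (θ : ⦋p + 1⦌ ⟶ ⦋m⦌) :
    ∑ i : Fin (p + 2), g (Z.map (cone (SimplexCategory.δ i ≫ θ)).op z) = g (Z.map θ.op z) := by
  have := hg (Z.map (cone θ).op z)
  rw [cob, Fin.sum_univ_succ] at this
  simp only [SimplicialObject.δ, ← Functor.map_comp_apply, ← op_comp, δ_zero_cone,
    δ_succ_cone] at this
  rw [eq_neg_of_add_eq_zero_right this, neg_eq_iff_add_eq_zero, add_self]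

end

section DegreeTwo

variable {Z : SSet.{0}} {V : Type} [AddCommGroup V] [Module F V] {g : Z _⦋2⦌ → V}

/-- Simplices of the twisted product in degree two. -/
def lift2 (hg : IsCoc g) {m : ℕ} (z : Z _⦋m⦌) (b : Fin (m + 1) → V) : tw g _⦋m⦌ :=
  ⟨(z, fun η => g (Z.map (cone η).op z) + (b (η.toOrderHom 0) + b (η.toOrderHom 1))), fun θ => by
    rw [Finset.sum_add_distrib, cone_spec hg, add_eq_left, Fin.sum_univ_three]
    change b (θ.toOrderHom 1) + b (θ.toOrderHom 2) + (b (θ.toOrderHom 0) + b (θ.toOrderHom 2)) +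
      (b (θ.toOrderHom 0) + b (θ.toOrderHom 1)) = 0
    have h0 := add_self (b (θ.toOrderHom 0))
    have h1 := add_self (b (θ.toOrderHom 1))
    have h2 := add_self (b (θ.toOrderHom 2))
    linear_combination (norm := abel) h0 + h1 + h2⟩

theorem tw2_const {m : ℕ} (q : tw g _⦋m⦌) (i : Fin (m + 1)) :
    q.1.2 (SimplexCategory.const _ _ i) = g (Z.map (SimplexCategory.const _ _ i).op q.1.1) := by
  have := q.2 (SimplexCategory.const _ _ i)
  rw [Fin.sum_univ_three] at this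
  change q.1.2 (SimplexCategory.const _ _ i) + q.1.2 (SimplexCategory.const _ _ i) +
    q.1.2 (SimplexCategory.const _ _ i) = _ at this
  rwa [add_self, zero_add] at this

theorem tw2_ext0 (q q' : tw g _⦋0⦌) (h : q.1.1 = q'.1.1) : q = q' := by
  apply Subtype.ext
  apply Prod.ext h
  funext η
  rw [SimplexCategory.eq_const_to_zero η, tw2_const, tw2_const, h]

theorem tw2_ext1 (q q' : tw g _⦋1⦌) (h : q.1.1 = q'.1.1) (h' : q.1.2 (𝟙 _) = q'.1.2 (𝟙 _)) :
    q = q' := by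
  apply Subtype.ext
  apply Prod.ext h
  funext η
  rcases SimplexCategory.eq_of_one_to_one η with ⟨i, rfl⟩ | rfl
  · rw [tw2_const, tw2_const, h]
  · exact h'

theorem conn_tw2 (hZ : Conn Z) (hg : IsCoc g) : Conn (tw g) := by
  obtain ⟨v⟩ := hZ.1
  refine ⟨⟨lift2 hg v 0⟩, fun P hP x y hx => ?_⟩
  have := hZ.2 (fun w => P (lift2 hg w 0)) (fun e => by
    have h := hP (lift2 hg e 0)
    rwa [tw2_ext0 ((tw g).δ 1 (lift2 hg e 0)) (lift2 hg (Z.δ 1 e) 0) rfl,
      tw2_ext0 ((tw g).δ 0 (lift2 hg e 0)) (lift2 hg (Z.δ 0 e) 0) rfl] at h) x.1.1 y.1.1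
    (by rwa [tw2_ext0 (lift2 hg x.1.1 0) x rfl])
  rwa [tw2_ext0 (lift2 hg y.1.1 0) y rfl] at this

/-- The edge over `e` with parameter `t`. -/
def edge2 (hg : IsCoc g) (e : Z _⦋1⦌) (t : V) : tw g _⦋1⦌ :=
  lift2 hg e ![0, t - g (Z.map (cone (𝟙 ⦋1⦌)).op e)]

theorem edge2_snd (hg : IsCoc g) (e : Z _⦋1⦌) (t : V) : (edge2 hg e t).1.2 (𝟙 _) = t := by
  change g _ + (0 + (t - g _)) = t
  abel

theorem exists_triangle (hg : IsCoc g) (z : Z _⦋2⦌) (t0 t1 t2 : V) (ht : t0 + t1 + t2 = g z) :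
    ∃ q : tw g _⦋2⦌, q.1.1 = z ∧ (tw g).δ 0 q = edge2 hg (Z.δ 0 z) t0 ∧
      (tw g).δ 1 q = edge2 hg (Z.δ 1 z) t1 ∧ (tw g).δ 2 q = edge2 hg (Z.δ 2 z) t2 := by
  let a : Fin 3 → V := fun i => g (Z.map (cone (SimplexCategory.δ i)).op z)
  have ha : a 0 + a 1 + a 2 = g z := by
    have := cone_spec hg z (𝟙 _)
    rw [Fin.sum_univ_three] at this
    simpa using this
  refine ⟨lift2 hg z ![0, t2 - a 2, t1 - a 1], rfl, tw2_ext1 _ _ rfl ?_, tw2_ext1 _ _ rfl ?_,
    tw2_ext1 _ _ rfl ?_⟩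
  · rw [edge2_snd, tw_δ_snd, Category.id_comp]
    change a 0 + ((t2 - a 2) + (t1 - a 1)) = t0
    have h0 := add_self t0
    have h1 := add_self (a 1)
    have h2 := add_self (a 2)
    have h3 := add_self (g z)
    linear_combination (norm := abel) ha + ht - h0 - h1 - h2 + h3
  · rw [edge2_snd, tw_δ_snd, Category.id_comp]
    change a 1 + (0 + (t1 - a 1)) = t1
    abel
  · rw [edge2_snd, tw_δ_snd, Category.id_comp]
    change a 2 + (0 + (t2 - a 2)) = t2
    abel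

theorem killing2 (hZ : Conn Z) (hg : IsCoc g) (f : Z _⦋2⦌ → F)
    (hf : IsCob (fun q : tw g _⦋2⦌ => f q.1.1)) :
    ∃ L : V →ₗ[F] F, IsCob (fun z => f z + L (g z)) := by
  obtain ⟨h, hh⟩ := hf
  let H : Z _⦋1⦌ → V → F := fun e t => h (edge2 hg e t)
  have key : ∀ (z : Z _⦋2⦌) (t0 t1 t2 : V), t0 + t1 + t2 = g z →
      f z = H (Z.δ 0 z) t0 + H (Z.δ 1 z) t1 + H (Z.δ 2 z) t2 := by
    intro z t0 t1 t2 ht
    obtain ⟨q, rfl, h0, h1, h2⟩ := exists_triangle hg z t0 t1 t2 ht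
    have := hh q
    rw [cob, Fin.sum_univ_three, h0, h1, h2] at this
    exact this
  have kA : ∀ (z : Z _⦋2⦌) (b t t' : V),
      H (Z.δ 0 z) (t + b) + H (Z.δ 0 z) t = H (Z.δ 1 z) (t' + b) + H (Z.δ 1 z) t' := by
    intro z b t t'
    have e1 := key z t t' (g z - t - t') (by abel)
    have e2 := key z (t + b) (t' + b) (g z - t - t') (by
      linear_combination (norm := abel) add_self b)
    have a1 := add_self (H (Z.δ 1 z) (t' + b))
    have a2 := add_self (H (Z.δ 0 z) t)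
    linear_combination e1 - e2 - a1 + a2
  have kB : ∀ (z : Z _⦋2⦌) (b t t' : V),
      H (Z.δ 2 z) (t + b) + H (Z.δ 2 z) t = H (Z.δ 1 z) (t' + b) + H (Z.δ 1 z) t' := by
    intro z b t t'
    have e1 := key z (g z - t - t') t' t (by abel)
    have e2 := key z (g z - t - t') (t' + b) (t + b) (by
      linear_combination (norm := abel) add_self b)
    have a1 := add_self (H (Z.δ 1 z) (t' + b))
    have a2 := add_self (H (Z.δ 2 z) t)
    linear_combination e1 - e2 - a1 + a2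
  have s00 : ∀ e : Z _⦋1⦌, Z.δ 0 (Z.σ 0 e) = e := fun e => SSet.δ_comp_σ_self_apply 0 e
  have s01 : ∀ e : Z _⦋1⦌, Z.δ 1 (Z.σ 0 e) = e := fun e => SSet.δ_comp_σ_succ_apply 0 e
  have s11 : ∀ e : Z _⦋1⦌, Z.δ 1 (Z.σ 1 e) = e := fun e => SSet.δ_comp_σ_self_apply 1 e
  have s02 : ∀ e : Z _⦋1⦌, Z.δ 2 (Z.σ 0 e) = Z.σ 0 (Z.δ 1 e) := fun e =>
    SSet.δ_comp_σ_of_gt_apply (i := 1) (j := 0) (by decide) e
  have s10 : ∀ e : Z _⦋1⦌, Z.δ 0 (Z.σ 1 e) = Z.σ 0 (Z.δ 0 e) := fun e =>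
    SSet.δ_comp_σ_of_le_apply (i := 0) (j := 0) (by decide) e
  let D : Z _⦋1⦌ → V → F := fun e b => H e b + H e 0
  have d1 : ∀ e, D e = D (Z.σ 0 (Z.δ 1 e)) := by
    intro e
    funext b
    have := kB (Z.σ 0 e) b 0 0
    rw [s02, s01, zero_add b] at this
    exact this.symm
  have d0 : ∀ e, D e = D (Z.σ 0 (Z.δ 0 e)) := by
    intro e
    funext b
    have := kA (Z.σ 1 e) b 0 0
    rw [s10, s11, zero_add b] at this
    exact this.symm
  obtain ⟨v⟩ := hZ.1
  have dall : ∀ e, D e = D (Z.σ 0 v) := fun e =>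
    (d1 e).trans (hZ.const (fun w => D (Z.σ 0 w)) (fun e => (d1 e).symm.trans (d0 e)) _ _)
  have dadd : ∀ e t b, D e (t + b) = D e t + D e b := by
    intro e t b
    have := kA (Z.σ 0 e) b t 0
    rw [s00, s01, zero_add b] at this
    have a1 := add_self (H e t)
    have a2 := add_self (H e 0)
    change H e (t + b) + H e 0 = H e t + H e 0 + (H e b + H e 0)
    linear_combination this - a1
  let L : V →+ F := AddMonoidHom.mk' (D (Z.σ 0 v)) (dadd _)
  refine ⟨L.toZModLinearMap 2, fun e => H e 0, fun z => ?_⟩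
  rw [cob, Fin.sum_univ_three]
  change f z + D (Z.σ 0 v) (g z) = _
  rw [key z (g z) 0 0 (by abel), ← dall (Z.δ 0 z)]
  change _ + (H (Z.δ 0 z) (g z) + H (Z.δ 0 z) 0) = _
  linear_combination add_self (H (Z.δ 0 z) (g z))

end DegreeTwo

section DegreeOne

variable {Z : SSet.{0}} {V : Type} [AddCommGroup V] [Module F V] {g : Z _⦋1⦌ → V}

/-- Simplices of the twisted product in degree one. -/
def lift1 (hg : IsCoc g) {m : ℕ} (z : Z _⦋m⦌) (b : V) : tw g _⦋m⦌ :=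
  ⟨(z, fun η => g (Z.map (cone η).op z) + b), fun θ => by
    rw [Finset.sum_add_distrib, cone_spec hg, add_eq_left, Fin.sum_univ_two, add_self]⟩

/-- Deck transformations. -/
def deck (g : Z _⦋1⦌ → V) (t : V) : tw g ⟶ tw g where
  app _ := ↾fun q => ⟨(q.1.1, fun η => q.1.2 η + t), fun θ => by
    rw [Finset.sum_add_distrib, q.2 θ, add_eq_left, Fin.sum_univ_two, add_self]⟩

/-- The fibre coordinate of a vertex. -/
def val1 (w : tw g _⦋0⦌) : V := w.1.2 (𝟙 _)

omit [Module F V] in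
theorem tw1_ext0 (q q' : tw g _⦋0⦌) (h : q.1.1 = q'.1.1) (h' : val1 q = val1 q') : q = q' := by
  apply Subtype.ext
  apply Prod.ext h
  funext η
  rw [SimplexCategory.hom_zero_zero η]
  exact h'

theorem exists_edge1 (hg : IsCoc g) (e : Z _⦋1⦌) (i : Fin 2) (w : tw g _⦋0⦌)
    (hw : w.1.1 = Z.δ i e) : ∃ q : tw g _⦋1⦌, q.1.1 = e ∧ (tw g).δ i q = w := by
  refine ⟨lift1 hg e (val1 w - g (Z.map (cone (𝟙 _ ≫ SimplexCategory.δ i)).op e)), rfl,
    tw1_ext0 _ _ hw.symm ?_⟩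
  exact add_sub_cancel _ _

theorem killing1 (hZ : Conn Z) (hg : IsCoc g) (c : SSet.π₀ (tw g)) (f : Z _⦋1⦌ → F)
    (hf : IsCob (fun q : (cpt c).toSSet _⦋1⦌ => f q.1.1.1)) :
    ∃ L : V →ₗ[F] F, IsCob (fun z => f z + L (g z)) := by
  classical
  obtain ⟨h, hh⟩ := hf
  obtain ⟨w₀, rfl⟩ := c.mk_surjective
  have mem0 : ∀ w : tw g _⦋0⦌, w ∈ (cpt (SSet.π₀.mk w₀)).obj (op ⦋0⦌) ↔
      SSet.π₀.mk w = SSet.π₀.mk w₀ := by
    intro w
    change SSet.π₀.mk (vtx w 0) = _ ↔ _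
    rw [vtx_zero]
  let H : tw g _⦋0⦌ → F := fun w =>
    if hw : w ∈ (cpt (SSet.π₀.mk w₀)).obj (op ⦋0⦌) then h ⟨w, hw⟩ else 0
  have key : ∀ q : tw g _⦋1⦌, SSet.π₀.mk ((tw g).δ 1 q) = SSet.π₀.mk w₀ →
      f q.1.1 = H ((tw g).δ 0 q) + H ((tw g).δ 1 q) := by
    intro q hq
    have hq' : q ∈ (cpt (SSet.π₀.mk w₀)).obj (op ⦋1⦌) := by
      rw [δ_one_eq_vtx] at hq
      exact hq
    have : _ = ∑ i : Fin 2, _ := hh ⟨q, hq'⟩
    rw [Fin.sum_univ_two] at this
    simp only [H]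
    rw [dif_pos ((mem0 _).2 ((cls_edge q).symm.trans hq)), dif_pos ((mem0 _).2 hq)]
    exact this
  have deck_cls : ∀ (t : V) (w w' : tw g _⦋0⦌), SSet.π₀.mk w = SSet.π₀.mk w' →
      SSet.π₀.mk ((deck g t).app _ w) = SSet.π₀.mk ((deck g t).app _ w') := by
    intro t w w' e
    rw [← SSet.mapπ₀_mk, ← SSet.mapπ₀_mk, e]
  have deck_add : ∀ (t t' : V) (w : tw g _⦋0⦌),
      (deck g (t + t')).app _ w = (deck g t).app _ ((deck g t').app _ w) := by
    intro t t' w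
    refine tw1_ext0 _ _ rfl ?_
    change val1 w + (t + t') = val1 w + t' + t
    abel
  have deck_zero : ∀ w : tw g _⦋0⦌, (deck g 0).app _ w = w := fun w =>
    tw1_ext0 _ _ rfl (add_zero _)
  let S : Submodule F V :=
    { carrier := {t | SSet.π₀.mk ((deck g t).app _ w₀) = SSet.π₀.mk w₀}
      add_mem' := fun {t t'} ht ht' => by
        change SSet.π₀.mk _ = _
        rw [deck_add, deck_cls t _ _ ht']
        exact ht
      zero_mem' := by
        change SSet.π₀.mk _ = _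
        rw [deck_zero]
      smul_mem' := fun a t ht => by
        have : a = 0 ∨ a = 1 := by revert a; decide
        rcases this with rfl | rfl
        · rw [zero_smul]
          change SSet.π₀.mk _ = _
          rw [deck_zero]
        · rwa [one_smul] }
  have hconst : ∀ t ∈ S, ∀ w : tw g _⦋0⦌, SSet.π₀.mk w = SSet.π₀.mk w₀ →
      H ((deck g t).app _ w) + H w = H ((deck g t).app _ w₀) + H w₀ := by
    intro t ht w hw
    refine (conn_cpt (SSet.π₀.mk w₀)).const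
      (fun x => H ((deck g t).app _ x.1) + H x.1) (fun q => ?_) ⟨w, (mem0 _).2 hw⟩
      ⟨w₀, (mem0 _).2 rfl⟩
    have hq : SSet.π₀.mk ((tw g).δ 1 q.1) = SSet.π₀.mk w₀ := by
      rw [δ_one_eq_vtx]
      exact q.2
    have e1 := key q.1 hq
    have e2 : f q.1.1.1 = H ((deck g t).app _ ((tw g).δ 0 q.1)) +
        H ((deck g t).app _ ((tw g).δ 1 q.1)) :=
      key ((deck g t).app _ q.1) ((deck_cls t _ _ hq).trans ht)
    change H ((deck g t).app _ ((tw g).δ 1 q.1)) + H ((tw g).δ 1 q.1) =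
      H ((deck g t).app _ ((tw g).δ 0 q.1)) + H ((tw g).δ 0 q.1)
    have a1 := add_self (H ((tw g).δ 1 q.1))
    have a2 := add_self (H ((deck g t).app _ ((tw g).δ 0 q.1)))
    linear_combination e1 - e2 + a1 - a2
  let L₀ : S →+ F := AddMonoidHom.mk' (fun t => H ((deck g t.1).app _ w₀) + H w₀) (by
    intro t t'
    have := hconst t.1 t.2 _ t'.2
    rw [← deck_add] at this
    change H ((deck g (t.1 + t'.1)).app _ w₀) + H w₀ = _
    have a1 := add_self (H ((deck g t'.1).app _ w₀))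
    linear_combination this - a1)
  obtain ⟨L, hL⟩ := LinearMap.exists_extend (L₀.toZModLinearMap 2)
  have hL' : ∀ t ∈ S, L t = H ((deck g t).app _ w₀) + H w₀ := fun t ht =>
    LinearMap.congr_fun hL ⟨t, ht⟩
  have indep : ∀ w w' : tw g _⦋0⦌, SSet.π₀.mk w = SSet.π₀.mk w₀ →
      SSet.π₀.mk w' = SSet.π₀.mk w₀ → w.1.1 = w'.1.1 →
      H w + L (val1 w) = H w' + L (val1 w') := by
    intro w w' hw hw' e
    have e1 : w' = (deck g (val1 w' - val1 w)).app _ w := tw1_ext0 _ _ e.symm (by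
      change val1 w' = val1 w + (val1 w' - val1 w)
      abel)
    have hS : val1 w' - val1 w ∈ S := by
      change SSet.π₀.mk _ = _
      rw [← deck_cls _ _ _ hw, ← e1, hw']
    have e2 := hconst _ hS w hw
    rw [← e1, ← hL' _ hS, map_sub] at e2
    linear_combination e2 - add_self (H w')
  have hsurj : ∀ v : Z _⦋0⦌, ∃ w : tw g _⦋0⦌, SSet.π₀.mk w = SSet.π₀.mk w₀ ∧ w.1.1 = v := by
    intro v
    refine hZ.2 (fun v => ∃ w : tw g _⦋0⦌, SSet.π₀.mk w = SSet.π₀.mk w₀ ∧ w.1.1 = v)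
      (fun e => ⟨?_, ?_⟩) w₀.1.1 v ⟨w₀, rfl, rfl⟩
    · rintro ⟨w, hw, hwe⟩
      obtain ⟨q, rfl, rfl⟩ := exists_edge1 hg e 1 w hwe
      exact ⟨_, (cls_edge q).symm.trans hw, rfl⟩
    · rintro ⟨w, hw, hwe⟩
      obtain ⟨q, rfl, rfl⟩ := exists_edge1 hg e 0 w hwe
      exact ⟨_, (cls_edge q).trans hw, rfl⟩
  choose s hs hs' using hsurj
  refine ⟨L, fun v => H (s v) + L (val1 (s v)), fun e => ?_⟩
  obtain ⟨q, rfl, hq⟩ := exists_edge1 hg e 1 (s (Z.δ 1 e)) (hs' _)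
  have hq1 : SSet.π₀.mk ((tw g).δ 1 q) = SSet.π₀.mk w₀ := by rw [hq]; exact hs _
  have e0 := indep (s (Z.δ 0 q.1.1)) ((tw g).δ 0 q) (hs _) ((cls_edge q).symm.trans hq1) (hs' _)
  have e1 := tw_cob g q
  rw [cob, Fin.sum_univ_two] at e1 ⊢
  change g q.1.1 = val1 _ + val1 _ at e1
  change f q.1.1 + L (g q.1.1) = _
  rw [e0, ← hq, key q hq1, e1, map_add]
  ring

end DegreeOne

/-- The killing lemma. -/
theorem killing {p : ℕ} (hp : p = 0 ∨ p = 1) {Z : SSet.{0}} (hZ : Conn Z) {V : Type}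
    [AddCommGroup V] [Module F V] (g : Z _⦋p + 1⦌ → V) (hg : IsCoc g) :
    ∃ (Z' : SSet.{0}) (π : Z' ⟶ Z), Conn Z' ∧ IsCob (fun q => g (π.app _ q)) ∧
      ∀ f : Z _⦋p + 1⦌ → F, IsCob (fun q => f (π.app _ q)) →
        ∃ L : V →ₗ[F] F, IsCob (fun z => f z + L (g z)) := by
  have h0 : IsCob (fun q => g ((twπ g).app _ q)) := ⟨_, tw_cob g⟩
  rcases hp with rfl | rfl
  · obtain ⟨v⟩ := hZ.1
    let c := SSet.π₀.mk (lift1 hg v 0)
    exact ⟨(cpt c).toSSet, (cpt c).ι ≫ twπ g, conn_cpt c, h0.comp (cpt c).ι,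
      fun f hf => killing1 hZ hg c f hf⟩
  · exact ⟨tw g, twπ g, conn_tw2 hZ hg, h0, fun f hf => killing2 hZ hg f hf⟩

end Pool.Agent.Lib.MP_339d31_lc
end

-- part Pool.Agent.Lib.MP_339d31_lc.Bisim
section

/-! Eilenberg-MacLane objects of degree one and two have the same theory. -/

namespace Pool.Agent.Lib.MP_339d31_lc

open CategoryTheory MonoidalCategory CartesianMonoidalCategory Opposite

/-- Forcing in the abstract Kripke model whose worlds are subspaces of `F ^ k`. -/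
def AF : {k : ℕ} → Fml k → Submodule F (Fin k → F) → Prop
  | _, .top, _ => True
  | _, .bot, _ => False
  | _, .eq i j, U => Pi.single i 1 + Pi.single j 1 ∈ U
  | _, .and φ ψ, U => AF φ U ∧ AF ψ U
  | _, .or φ ψ, U => AF φ U ∨ AF ψ U
  | _, .imp φ ψ, U => ∀ U', U ≤ U' → AF φ U' → AF ψ U'
  | k, .all φ, U => ∀ U' : Submodule F (Fin (k + 1) → F),
      (∀ c ∈ U, (Fin.snoc c 0 : Fin (k + 1) → F) ∈ U') → AF φ U'
  | k, .ex φ, U => ∃ a : Fin k → F, ∀ U' : Submodule F (Fin (k + 1) → F),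
      (∀ c : Fin (k + 1) → F, Fin.init c + c (Fin.last k) • a ∈ U → c ∈ U') → AF φ U'

theorem AF.mono : ∀ {k : ℕ} (φ : Fml k) {U U' : Submodule F (Fin k → F)}, U ≤ U' → AF φ U → AF φ U'
  | _, .top, _, _, _, h => h
  | _, .bot, _, _, _, h => h
  | _, .eq _ _, _, _, hU, h => hU h
  | _, .and φ ψ, _, _, hU, h => ⟨AF.mono φ hU h.1, AF.mono ψ hU h.2⟩
  | _, .or φ ψ, _, _, hU, h => h.imp (AF.mono φ hU) (AF.mono ψ hU)
  | _, .imp _ _, _, _, hU, h => fun W hW => h W (hU.trans hW)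
  | _, .all _, _, _, hU, h => fun W hW => h W fun c hc => hW c (hU hc)
  | _, .ex _, _, _, hU, h => by
    obtain ⟨a, h⟩ := h
    exact ⟨a, fun W hW => h W fun c hc => hW c (hU hc)⟩

open Simplicial

/-- `S` represents cohomology mod 2 in degree `p + 1`. -/
structure EM (S : SSet.{0}) (p : ℕ) where
  u : S _⦋p + 1⦌ → F
  coc : IsCoc u
  surj : ∀ (Z : SSet.{0}) (l : Z _⦋p + 1⦌ → F), IsCoc l →
    ∃ f : Z ⟶ S, IsCob (fun z => l z + u (f.app _ z))
  htpy : ∀ (Z : SSet.{0}) (f g : Z ⟶ S),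
    Htpy f g ↔ IsCob (fun z => u (f.app _ z) + u (g.app _ z))
  nontriv : ¬ IsCob u

variable {S : SSet.{0}} {p : ℕ}

theorem isCob_point (hp : p = 0 ∨ p = 1) (l : (𝟙_ SSet.{0}) _⦋p + 1⦌ → F) (hl : IsCoc l) :
    IsCob l := by
  rcases hp with rfl | rfl
  · refine ⟨fun _ => 0, fun z => ?_⟩
    have := hl PUnit.unit
    rw [cob, Fin.sum_univ_three] at this
    change l z + l z + l z = 0 at this
    rw [add_self, zero_add] at this
    simp [cob, this]
  · refine ⟨fun _ => l PUnit.unit, fun z => ?_⟩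
    rw [cob, Fin.sum_univ_three, add_self, zero_add]
    rfl

theorem isCob_const (hp : p = 0 ∨ p = 1) {Y Z : SSet.{0}} (l : Y _⦋p + 1⦌ → F) (hl : IsCoc l)
    (y : Y _⦋0⦌) : IsCob (fun z => l ((SSet.const y : Z ⟶ Y).app _ z)) :=
  (isCob_point hp _ (hl.comp (SSet.const y : 𝟙_ SSet.{0} ⟶ Y))).comp (toUnit Z)

theorem conn_unit : Conn (𝟙_ SSet.{0}) := ⟨⟨PUnit.unit⟩, fun _ _ _ _ h => h⟩

theorem EM.conn (E : EM S p) (hp : p = 0 ∨ p = 1) : Conn S := by
  obtain ⟨f, -⟩ := E.surj (𝟙_ SSet.{0}) (fun _ => 0) (fun z => by simp [cob])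
  refine ⟨⟨f.app _ PUnit.unit⟩, fun P hP x y hx => ?_⟩
  obtain ⟨H, h0, h1⟩ := (E.htpy (𝟙_ SSet.{0}) (SSet.const x) (SSet.const y)).2
    ((isCob_const hp _ E.coc x).add (isCob_const hp _ E.coc y))
  let e : (𝟙_ SSet.{0} ⊗ Δ[1]) _⦋1⦌ := (PUnit.unit, SSet.stdSimplex.objEquiv.symm (𝟙 _))
  have e1 : S.δ 1 (H.app _ e) = x := by
    rw [← SSet.δ_naturality_apply]
    have := ConcreteCategory.congr_hom (NatTrans.congr_app h0 (op ⦋0⦌)) PUnit.unit
    refine Eq.trans ?_ (this.trans (vtx_zero x 0))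
    exact congrArg (H.app _) (Prod.ext rfl (by ext i; fin_cases i; rfl))
  have e0 : S.δ 0 (H.app _ e) = y := by
    rw [← SSet.δ_naturality_apply]
    have := ConcreteCategory.congr_hom (NatTrans.congr_app h1 (op ⦋0⦌)) PUnit.unit
    refine Eq.trans ?_ (this.trans (vtx_zero y 0))
    exact congrArg (H.app _) (Prod.ext rfl (by ext i; fin_cases i; rfl))
  have := hP (H.app _ e)
  rw [e1, e0] at this
  exact this.1 hx

theorem Conn.prod {Y Z : SSet.{0}} (hY : Conn Y) (hZ : Conn Z) : Conn (Y ⊗ Z) := by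
  obtain ⟨y₀⟩ := hY.1
  obtain ⟨z₀⟩ := hZ.1
  refine ⟨⟨(y₀, z₀)⟩, ?_⟩
  rintro P hP ⟨y, z⟩ ⟨y', z'⟩ h
  have h1 : P (y', z) := hY.2 (fun w => P (w, z)) (fun e => by
    have := hP (e, Z.σ 0 z)
    change P (Y.δ 1 e, Z.δ 1 (Z.σ 0 z)) ↔ P (Y.δ 0 e, Z.δ 0 (Z.σ 0 z)) at this
    rwa [show Z.δ 1 (Z.σ 0 z) = z from SSet.δ_comp_σ_succ_apply 0 z,
      show Z.δ 0 (Z.σ 0 z) = z from SSet.δ_comp_σ_self_apply 0 z] at this) y y' h
  exact hZ.2 (fun w => P (y', w)) (fun e => by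
    have := hP (Y.σ 0 y', e)
    change P (Y.δ 1 (Y.σ 0 y'), Z.δ 1 e) ↔ P (Y.δ 0 (Y.σ 0 y'), Z.δ 0 e) at this
    rwa [show Y.δ 1 (Y.σ 0 y') = y' from SSet.δ_comp_σ_succ_apply 0 y',
      show Y.δ 0 (Y.σ 0 y') = y' from SSet.δ_comp_σ_self_apply 0 y'] at this) z z' h1

/-- The classes of the components of `f`. -/
noncomputable def EM.cl (E : EM S p) {k : ℕ} {Z : SSet.{0}} (f : Z ⟶ pow S k) (z : Z _⦋p + 1⦌) :
    Fin k → F :=
  fun i => E.u ((f ≫ proj S k i).app _ z)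

theorem EM.cl_coc (E : EM S p) {k : ℕ} {Z : SSet.{0}} (f : Z ⟶ pow S k) : IsCoc (E.cl f) := by
  intro z
  funext i
  rw [cob, Finset.sum_apply]
  exact E.coc.comp (f ≫ proj S k i) z

theorem IsCoc.map {Z : SSet.{0}} {V W : Type} [AddCommGroup V] [AddCommGroup W]
    {g : Z _⦋p⦌ → V} (h : IsCoc g) (L : V →+ W) : IsCoc (fun z => L (g z)) := by
  intro z
  rw [cob, ← map_sum]
  exact (congrArg L (h z)).trans (map_zero L)

/-- The space of linear relations between the classes of the components of `f`. -/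
def EM.Rel (E : EM S p) {k : ℕ} {Z : SSet.{0}} (f : Z ⟶ pow S k) : Submodule F (Fin k → F) where
  carrier := {c | IsCob (fun z => c ⬝ᵥ E.cl f z)}
  add_mem' := fun ha hb => (IsCob.add ha hb).congr fun z => (add_dotProduct _ _ _).symm
  zero_mem' := IsCob.zero.congr fun z => (zero_dotProduct _).symm
  smul_mem' := fun a c hc => (IsCob.map hc (AddMonoidHom.mulLeft a)).congr fun z => by simp

theorem EM.mem_Rel (E : EM S p) {k : ℕ} {Z : SSet.{0}} (f : Z ⟶ pow S k) (c : Fin k → F) :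
    c ∈ E.Rel f ↔ IsCob (fun z => c ⬝ᵥ E.cl f z) := Iff.rfl

theorem EM.Rel_le (E : EM S p) {k : ℕ} {Z Z' : SSet.{0}} (f : Z ⟶ pow S k) (π : Z' ⟶ Z) :
    E.Rel f ≤ E.Rel (π ≫ f) := fun _ hc => IsCob.comp hc π

theorem EM.exists_Rel (E : EM S p) (hp : p = 0 ∨ p = 1) {k : ℕ} {Z : SSet.{0}} (hZ : Conn Z)
    (f : Z ⟶ pow S k) (U : Submodule F (Fin k → F)) (hU : E.Rel f ≤ U) :
    ∃ (Z' : SSet.{0}) (π : Z' ⟶ Z), Conn Z' ∧ E.Rel (π ≫ f) = U := by
  let T : (Fin k → F) →ₗ[F] Module.Dual F U :=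
    (dotProductBilin F F).flip.compl₂ U.subtype
  have hT : ∀ (y : Fin k → F) (c : U), T y c = c.1 ⬝ᵥ y := fun _ _ => rfl
  obtain ⟨Z', π, hZ', h1, h2⟩ := killing hp hZ (fun z => T (E.cl f z))
    ((E.cl_coc f).map T.toAddMonoidHom)
  refine ⟨Z', π, hZ', le_antisymm (fun c hc => ?_) (fun c hc => ?_)⟩
  · obtain ⟨L, hL⟩ := h2 (fun z => c ⬝ᵥ E.cl f z) hc
    obtain ⟨c₀, rfl⟩ := (Module.evalEquiv F U).surjective L
    have : c + c₀.1 ∈ E.Rel f := hL.congr fun z => by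
      rw [add_dotProduct, Module.evalEquiv_apply, Module.Dual.eval_apply, hT]
    simpa using U.sub_mem (hU this) c₀.2
  · exact h1.map (Module.Dual.eval F U ⟨c, hc⟩).toAddMonoidHom

/-- Adding one more component. -/
noncomputable def snoc {k : ℕ} {Z : SSet.{0}} (f : Z ⟶ pow S k) (g : Z ⟶ S) : Z ⟶ pow S (k + 1) :=
  lift f g

theorem comp_snoc {k : ℕ} {Z Z' : SSet.{0}} (π : Z' ⟶ Z) (f : Z ⟶ pow S k) (g : Z ⟶ S) :
    π ≫ snoc f g = snoc (π ≫ f) (π ≫ g) := rfl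

theorem snoc_last {k : ℕ} {Z : SSet.{0}} (f : Z ⟶ pow S k) (g : Z ⟶ S) :
    snoc f g ≫ proj S (k + 1) (Fin.last k) = g := by
  have : proj S (k + 1) (Fin.last k) = snd (pow S k) S := by
    simp only [proj, Fin.lastCases_last]
  rw [this]
  rfl

theorem snoc_castSucc {k : ℕ} {Z : SSet.{0}} (f : Z ⟶ pow S k) (g : Z ⟶ S) (i : Fin k) :
    snoc f g ≫ proj S (k + 1) i.castSucc = f ≫ proj S k i := by
  have : proj S (k + 1) i.castSucc = fst (pow S k) S ≫ proj S k i := by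
    simp only [proj, Fin.lastCases_castSucc]
  rw [this]
  rfl

theorem lifts_all' {k : ℕ} {Z : SSet.{0}} (φ : Fml (k + 1)) (f : Z ⟶ pow S k) :
    Lifts (interp S φ.all) f ↔
      ∀ (Z' : SSet.{0}) (π : Z' ⟶ Z) (g : Z' ⟶ S), Lifts (interp S φ) (snoc (π ≫ f) g) :=
  lifts_all S (interp S φ) f

theorem lifts_ex' {k : ℕ} {Z : SSet.{0}} (φ : Fml (k + 1)) (f : Z ⟶ pow S k) :
    Lifts (interp S φ.ex) f ↔ ∃ g : Z ⟶ S, Lifts (interp S φ) (snoc f g) :=
  lifts_ex S (interp S φ) f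

theorem EM.cl_lift (E : EM S p) {k : ℕ} {Z : SSet.{0}} (f : Z ⟶ pow S k) (g : Z ⟶ S)
    (c : Fin (k + 1) → F) (z : Z _⦋p + 1⦌) :
    c ⬝ᵥ E.cl (snoc f g) z =
      Fin.init c ⬝ᵥ E.cl f z + c (Fin.last k) * E.u (g.app _ z) := by
  rw [dotProduct, Fin.sum_univ_castSucc, dotProduct]
  simp only [EM.cl, snoc_last, snoc_castSucc]
  rfl

theorem EM.main (E : EM S p) (hp : p = 0 ∨ p = 1) {k : ℕ} (φ : Fml k) :
    ∀ {Z : SSet.{0}} (_ : Conn Z) (f : Z ⟶ pow S k), Lifts (interp S φ) f ↔ AF φ (E.Rel f) := by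
  induction φ with
  | top => intro Z _ f; exact iff_of_true (lifts_top f) trivial
  | bot => intro Z hZ f; exact iff_of_false (not_lifts_bot f hZ.1) id
  | eq i j =>
    intro Z _ f
    rw [interp, lifts_pullback, comp_lift, lifts_path, E.htpy, AF, E.mem_Rel]
    simp only [add_dotProduct, single_dotProduct, one_mul]
    rfl
  | and φ ψ ihφ ihψ =>
    intro Z hZ f
    rw [interp, lifts_prod, AF, ihφ hZ, ihψ hZ]
  | or φ ψ ihφ ihψ =>
    intro Z hZ f
    rw [interp, lifts_coprod hZ, AF, ihφ hZ, ihψ hZ]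
  | imp φ ψ ihφ ihψ =>
    intro Z hZ f
    rw [interp, lifts_imp, AF]
    constructor
    · intro h U hU hφ
      obtain ⟨Z', π, hZ', rfl⟩ := E.exists_Rel hp hZ f U hU
      exact (ihψ hZ' _).1 (h Z' π ((ihφ hZ' _).2 hφ))
    · intro h Z' π hφ
      refine lifts_of_cpt _ _ fun c => (ihψ (conn_cpt c) _).2 (h _ ?_ ?_)
      · rw [← Category.assoc]
        exact E.Rel_le f _
      · exact (ihφ (conn_cpt c) _).1 (hφ.comp _)
  | @all k φ ih =>
    intro Z hZ f
    rw [lifts_all', AF]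
    constructor
    · intro h U hU
      have hle : E.Rel (snoc (fst Z S ≫ f) (snd Z S)) ≤ U := by
        intro c hc
        rw [E.mem_Rel] at hc
        simp only [E.cl_lift] at hc
        obtain ⟨z₀⟩ := hZ.1
        obtain ⟨s₀⟩ := (E.conn hp).1
        have h1 : c (Fin.last k) = 0 := by
          by_contra hne
          have h2 : c (Fin.last k) = 1 := by
            revert hne
            generalize c (Fin.last k) = a
            revert a
            decide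
          have h3 := hc.comp (lift (SSet.const z₀) (𝟙 S))
          have h4 := isCob_const hp (Z := S) (fun z => Fin.init c ⬝ᵥ E.cl f z)
            ((E.cl_coc f).map (dotProductBilin F F (Fin.init c)).toAddMonoidHom) z₀
          refine E.nontriv ((h3.add h4).congr fun s => ?_)
          rw [h2, one_mul]
          change _ ⬝ᵥ E.cl f _ + E.u s + _ ⬝ᵥ E.cl f _ = _
          rw [add_right_comm]
          exact (congrArg (· + E.u s) (add_self _)).trans (zero_add _)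
        have h5 : Fin.init c ∈ E.Rel f := by
          refine (hc.comp (lift (𝟙 Z) (SSet.const s₀))).congr fun z => ?_
          rw [h1, zero_mul, add_zero]
          rfl
        have := hU _ h5
        rwa [← h1, Fin.snoc_init_self] at this
      obtain ⟨Z', π, hZ', rfl⟩ := E.exists_Rel hp (hZ.prod (E.conn hp)) _ U hle
      exact (ih hZ' _).1 ((h _ _ _).comp π)
    · intro h Z' π g
      refine lifts_of_cpt _ _ fun c => (ih (conn_cpt c) _).2 (h _ fun a ha => ?_)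
      rw [comp_snoc, E.mem_Rel]
      refine (E.Rel_le f ((cpt c).ι ≫ π) ha).congr fun z => ?_
      rw [E.cl_lift, Fin.init_snoc, Fin.snoc_last, zero_mul, add_zero, Category.assoc]
  | @ex k φ ih =>
    intro Z hZ f
    rw [lifts_ex', AF]
    constructor
    · rintro ⟨g, hg⟩
      have hφ := (ih hZ _).1 hg
      by_cases hc : ∃ c ∈ E.Rel (snoc f g), c (Fin.last k) = 1
      · obtain ⟨c₀, hc₀, h1⟩ := hc
        refine ⟨Fin.init c₀, fun U hU => AF.mono φ (fun c hc => hU c ?_) hφ⟩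
        rw [E.mem_Rel] at hc hc₀ ⊢
        refine (hc.add (hc₀.map (AddMonoidHom.mulLeft (c (Fin.last k))))).congr fun z => ?_
        rw [E.cl_lift, E.cl_lift, h1, add_dotProduct, smul_dotProduct, smul_eq_mul]
        simp only [AddMonoidHom.coe_mulLeft]
        linear_combination add_self (c (Fin.last k) * E.u (g.app _ z))
      · refine ⟨0, fun U hU => AF.mono φ (fun c hc' => hU c ?_) hφ⟩
        have h1 : c (Fin.last k) = 0 := by
          by_contra hne
          refine hc ⟨c, hc', ?_⟩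
          revert hne
          generalize c (Fin.last k) = a
          revert a
          decide
        rw [E.mem_Rel] at hc' ⊢
        refine hc'.congr fun z => ?_
        rw [E.cl_lift, h1, zero_mul, add_zero, smul_zero, add_zero]
    · rintro ⟨a, ha⟩
      obtain ⟨g, hg⟩ := E.surj Z (fun z => a ⬝ᵥ E.cl f z)
        ((E.cl_coc f).map (dotProductBilin F F a).toAddMonoidHom)
      refine ⟨g, (ih hZ _).2 (ha _ fun c hc => ?_)⟩
      rw [E.mem_Rel] at hc ⊢
      refine (hc.add (hg.map (AddMonoidHom.mulLeft (c (Fin.last k))))).congr fun z => ?_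
      rw [E.cl_lift, add_dotProduct, smul_dotProduct, smul_eq_mul]
      simp only [AddMonoidHom.coe_mulLeft]
      linear_combination add_self (c (Fin.last k) * (a ⬝ᵥ E.cl f z))

theorem EM.nonempty_iff (E : EM S p) (hp : p = 0 ∨ p = 1) (φ : Fml 0) :
    (interp S φ).left.Nonempty ↔ AF φ ⊥ := by
  have h := E.main hp φ conn_unit (toUnit _)
  refine Iff.trans ?_ (h.trans (by rw [Subsingleton.elim ⊥ _]))
  constructor
  · rintro ⟨x⟩
    exact ⟨SSet.const x, toUnit_unique _ _⟩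
  · rintro ⟨g, -⟩
    exact ⟨g.app _ PUnit.unit⟩

end Pool.Agent.Lib.MP_339d31_lc
end

-- part Pool.Agent.Lib.MP_339d31_lc.Inj
section

/-! Injective simplicial vector spaces and comparison of resolutions. -/

namespace Pool.Agent.Lib.MP_339d31_lc

open CategoryTheory Limits Opposite Simplicial MonoidalCategory CartesianMonoidalCategory
  AlgebraicTopology

/-- Simplicial vector spaces over the field with two elements. -/
abbrev SV := SimplicialObject (ModuleCat.{0} F)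

/-- The underlying simplicial set. -/
abbrev und (G : SV) : SSet.{0} := G ⋙ forget _

theorem injective_mod (M : ModuleCat.{0} F) : Injective M :=
  have := Module.injective_of_isSemisimpleRing F M
  Module.injective_object_of_injective_module F M

theorem injective_complex (B : ChainComplex (ModuleCat.{0} F) ℕ) (h : Homotopy (𝟙 B) 0) :
    Injective B where
  factors {M M'} φ j _ := by
    have : ∀ p q, ∃ ψ : M'.X p ⟶ B.X q, j.f p ≫ ψ = φ.f p ≫ h.hom p q := fun p q =>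
      (injective_mod _).factors _ _
    choose ψ hψ using this
    refine ⟨Homotopy.nullHomotopicMap ψ, ?_⟩
    have h1 : 𝟙 B = Homotopy.nullHomotopicMap h.hom := by
      ext1 i
      simpa [Homotopy.nullHomotopicMap] using h.comm i
    rw [Homotopy.comp_nullHomotopicMap, ← Category.comp_id φ, h1, Homotopy.comp_nullHomotopicMap]
    congr 1
    funext p q
    exact hψ p q

theorem injective_sv (G : SV) (h : SimplicialObject.Homotopy (0 : G ⟶ G) (𝟙 G)) :
    Injective G := by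
  have h1 : Homotopy (𝟙 ((alternatingFaceMapComplex (ModuleCat.{0} F)).obj G)) 0 :=
    (Homotopy.ofEq (by simp)).trans (h.toChainHomotopy.symm.trans (Homotopy.ofEq (by simp)))
  have h2 := injective_complex _ h1
  have h3 : Injective ((normalizedMooreComplex (ModuleCat.{0} F)).obj G) :=
    Retract.injective (i := h2)
      ⟨inclusionOfMooreComplexMap G, DoldKan.PInftyToNormalizedMooreComplex G,
        (DoldKan.splitMonoInclusionOfMooreComplexMap G).id⟩
  exact ((Abelian.DoldKan.equivalence (A := ModuleCat.{0} F)).map_injective_iff G).1 h3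

/-- A linear contraction of a simplicial vector space. -/
structure Contr (G : SV) where
  H : ∀ m : SimplexCategoryᵒᵖ, (Δ[1] : SSet.{0}).obj m → (G.obj m →ₗ[F] G.obj m)
  nat : ∀ {m m' : SimplexCategoryᵒᵖ} (θ : m ⟶ m') (τ : (Δ[1] : SSet.{0}).obj m) (x : G.obj m),
    H m' ((Δ[1] : SSet.{0}).map θ τ) (G.map θ x) = G.map θ (H m τ x)
  zero : ∀ m (τ : (Δ[1] : SSet.{0}).obj m) (x : G.obj m),
    (∀ k, (SSet.stdSimplex.objEquiv τ).toOrderHom k = 0) → H m τ x = 0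
  one : ∀ m (τ : (Δ[1] : SSet.{0}).obj m) (x : G.obj m),
    (∀ k, (SSet.stdSimplex.objEquiv τ).toOrderHom k = 1) → H m τ x = x

/-- The homotopy of simplicial sets given by a linear contraction. -/
def Contr.hom {G : SV} (c : Contr G) : und G ⊗ Δ[1] ⟶ und G where
  app m := ↾fun x => c.H m x.2 x.1
  naturality m m' θ := by
    ext x
    exact c.nat θ x.2 x.1

/-- The homotopy of simplicial sets given by a linear contraction. -/
noncomputable def Contr.sset {G : SV} (c : Contr G) :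
    SSet.Homotopy (X := und G) (Y := und G) (Functor.whiskerRight (0 : G ⟶ G) (forget _))
      (𝟙 _) where
  h := c.hom
  h₀ := by
    ext m x
    exact c.zero m _ _ (fun _ => rfl)
  h₁ := by
    ext m x
    exact c.one m _ _ (fun _ => rfl)
  rel := by ext _ ⟨⟨_, ⟨⟩⟩, _⟩

/-- The linear simplicial homotopy given by a linear contraction. -/
noncomputable def Contr.lin {G : SV} (c : Contr G) :
    SimplicialObject.Homotopy (0 : G ⟶ G) (𝟙 G) where
  h {n} i := G.σ i ≫ ModuleCat.ofHom (c.H _ (SSet.stdSimplex.objMk₁ i.succ.castSucc))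
  h_zero_comp_δ_zero n := by
    ext x
    exact ConcreteCategory.congr_hom (c.sset.toSimplicialObjectHomotopy.h_zero_comp_δ_zero n) x
  h_last_comp_δ_last n := by
    ext x
    exact ConcreteCategory.congr_hom (c.sset.toSimplicialObjectHomotopy.h_last_comp_δ_last n) x
  h_succ_comp_δ_castSucc_of_lt i j hij := by
    ext x
    exact ConcreteCategory.congr_hom
      (c.sset.toSimplicialObjectHomotopy.h_succ_comp_δ_castSucc_of_lt i j hij) x
  h_succ_comp_δ_castSucc_succ j := by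
    ext x
    exact ConcreteCategory.congr_hom
      (c.sset.toSimplicialObjectHomotopy.h_succ_comp_δ_castSucc_succ j) x
  h_castSucc_comp_δ_succ_of_lt i j hij := by
    ext x
    exact ConcreteCategory.congr_hom
      (c.sset.toSimplicialObjectHomotopy.h_castSucc_comp_δ_succ_of_lt i j hij) x
  h_comp_σ_castSucc_of_le i j hij := by
    ext x
    exact ConcreteCategory.congr_hom
      (c.sset.toSimplicialObjectHomotopy.h_comp_σ_castSucc_of_le i j hij) x
  h_comp_σ_succ_of_lt i j hij := by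
    ext x
    exact ConcreteCategory.congr_hom
      (c.sset.toSimplicialObjectHomotopy.h_comp_σ_succ_of_lt i j hij) x

theorem Contr.injective {G : SV} (c : Contr G) : Injective G := injective_sv G c.lin

/-- A levelwise short exact sequence. -/
structure SES (X E Y : SV) where
  ι : X ⟶ E
  π : E ⟶ Y
  inj : ∀ m, Function.Injective (ι.app m)
  surj : ∀ m, Function.Surjective (π.app m)
  zero : ι ≫ π = 0
  exact : ∀ m (e : E.obj m), π.app m e = 0 → ∃ x, ι.app m x = e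

section

variable {X E Y Z C W : SV}

theorem SES.mono (s : SES X E Y) : Mono s.ι := by
  have : ∀ m, Mono (s.ι.app m) := fun m => (ModuleCat.mono_iff_injective _).2 (s.inj m)
  exact NatTrans.mono_of_mono_app _

theorem SES.epi_app (s : SES X E Y) (m : SimplexCategoryᵒᵖ) : Epi (s.π.app m) :=
  (ModuleCat.epi_iff_surjective _).2 (s.surj m)

theorem SES.epi (s : SES X E Y) : Epi s.π := by
  have := s.epi_app
  exact NatTrans.epi_of_epi_app _

theorem SES.desc (s : SES X E Y) {T : SV} (ψ : E ⟶ T) (h : s.ι ≫ ψ = 0) :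
    ∃ χ : Y ⟶ T, s.π ≫ χ = ψ := by
  have : ∀ m, ∃ χ : Y.obj m ⟶ T.obj m, s.π.app m ≫ χ = ψ.app m := fun m => by
    have he := s.epi_app m
    have hz : s.ι.app m ≫ s.π.app m = 0 := by rw [← NatTrans.comp_app, s.zero]; rfl
    have hx : (ShortComplex.mk _ _ hz).Exact :=
      (ShortComplex.moduleCat_exact_iff _).2 (fun e he => s.exact m e he)
    have hz' : s.ι.app m ≫ ψ.app m = 0 := by rw [← NatTrans.comp_app, h]; rfl
    exact ⟨hx.desc (ψ.app m) hz', hx.g_desc _ _⟩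
  choose χ hχ using this
  refine ⟨⟨χ, fun m m' θ => ?_⟩, ?_⟩
  · have he := s.epi_app m
    rw [← cancel_epi (s.π.app m), ← Category.assoc, ← s.π.naturality, Category.assoc, hχ,
      ← Category.assoc, hχ, ψ.naturality]
  · ext1 m
    exact hχ m

/-- Maps factoring through an injective object. -/
def FI (φ : X ⟶ Y) : Prop := ∃ (I : SV) (_ : Injective I) (p : X ⟶ I) (q : I ⟶ Y), φ = p ≫ q

theorem SES.side (s : SES X E Y) {a₁ : E ⟶ E} {a : X ⟶ X} {a' : Y ⟶ Y}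
    (h1 : s.ι ≫ a₁ = a ≫ s.ι) (h2 : s.π ≫ a' = a₁ ≫ s.π) (h : FI (a - 𝟙 X)) :
    ∃ e : Y ⟶ E, a' - 𝟙 Y = e ≫ s.π := by
  obtain ⟨I, hI, p, q, hpq⟩ := h
  have := s.mono
  have := s.epi
  obtain ⟨p', hp'⟩ := hI.factors p s.ι
  obtain ⟨e, he⟩ := s.desc (a₁ - 𝟙 E - p' ≫ q ≫ s.ι) (by
    simp only [Preadditive.comp_sub, Category.comp_id, h1]
    rw [← Category.assoc, hp', ← Category.assoc, ← hpq]
    simp)
  refine ⟨e, ?_⟩
  rw [← cancel_epi s.π, ← Category.assoc, he]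
  simp [Preadditive.comp_sub, Preadditive.sub_comp, h2, s.zero]

/-- Comparison data between two quotients. -/
structure Cmp (s : SES X E Y) (t : SES Z C W) where
  a : Y ⟶ W
  b : W ⟶ Y
  e : Y ⟶ E
  c : W ⟶ C
  b₁ : C ⟶ E
  ab : a ≫ b - 𝟙 Y = e ≫ s.π
  ba : b ≫ a - 𝟙 W = c ≫ t.π
  sq : t.π ≫ b = b₁ ≫ s.π

theorem exists_cmp (s : SES X E Y) (t : SES Z C W) (hE : Injective E) (hC : Injective C)
    (a : X ⟶ Z) (b : Z ⟶ X) (hab : FI (a ≫ b - 𝟙 X)) (hba : FI (b ≫ a - 𝟙 Z)) :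
    Nonempty (Cmp s t) := by
  have := s.mono
  have := t.mono
  obtain ⟨a₁, ha₁⟩ := hC.factors (a ≫ t.ι) s.ι
  obtain ⟨b₁, hb₁⟩ := hE.factors (b ≫ s.ι) t.ι
  obtain ⟨a', ha'⟩ := s.desc (a₁ ≫ t.π) (by rw [← Category.assoc, ha₁]; simp [t.zero])
  obtain ⟨b', hb'⟩ := t.desc (b₁ ≫ s.π) (by rw [← Category.assoc, hb₁]; simp [s.zero])
  obtain ⟨e, he⟩ := s.side (a₁ := a₁ ≫ b₁) (a := a ≫ b) (a' := a' ≫ b')
    (by rw [← Category.assoc, ha₁, Category.assoc, hb₁, Category.assoc])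
    (by rw [← Category.assoc, ha', Category.assoc, hb', Category.assoc]) hab
  obtain ⟨c, hc⟩ := t.side (a₁ := b₁ ≫ a₁) (a := b ≫ a) (a' := b' ≫ a')
    (by rw [← Category.assoc, hb₁, Category.assoc, ha₁, Category.assoc])
    (by rw [← Category.assoc, hb', Category.assoc, ha', Category.assoc]) hba
  exact ⟨⟨a', b', e, c, b₁, he, hc, hb'⟩⟩

end

end Pool.Agent.Lib.MP_339d31_lc
end
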