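import Mathlib

-- part Pool.Agent.Lib.MP_339d31_lc.Lift
section

/-! Lifting maps from finite dimensional compact spaces along quotient maps of normed groups. -/

namespace Pool.Agent.Lib.MP_339d31_lc

open Finset

/-- An additive contraction of a normed group. -/
structure Trunc (E : Type) [NormedAddCommGroup E] where
  h : ℝ → E →+ E
  cont : Continuous fun x : ℝ × E => h x.1 x.2
  zero : ∀ e, h 0 e = 0
  one : ∀ e, h 1 e = e
  norm_le : ∀ t e, ‖h t e‖ ≤ ‖e‖

section Mix

variable {E : Type} [NormedAddCommGroup E] (τ : Trunc E)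

/-- Mixing elements along weights. -/
def Trunc.mix (n : ℕ) (a : ℕ → ℝ) (e : ℕ → E) : E :=
  ∑ k ∈ range n, (τ.h (∑ j ∈ range (k + 1), a j) (e k) - τ.h (∑ j ∈ range k, a j) (e k))

theorem Trunc.mix_sub (n : ℕ) (a : ℕ → ℝ) (e e' : ℕ → E) :
    τ.mix n a e - τ.mix n a e' = τ.mix n a (fun k => e k - e' k) := by
  simp only [Trunc.mix, ← sum_sub_distrib, map_sub]
  exact sum_congr rfl fun k _ => by abel

theorem Trunc.mix_const {n : ℕ} {a : ℕ → ℝ} (ha : ∑ j ∈ range n, a j = 1) (c : E) :
    τ.mix n a (fun _ => c) = c := by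
  rw [Trunc.mix, sum_range_sub (fun k => τ.h (∑ j ∈ range k, a j) c), ha, sum_range_zero, τ.zero,
    τ.one, sub_zero]

theorem Trunc.norm_mix {n M : ℕ} {a : ℕ → ℝ} (hM : ((range n).filter fun k => a k ≠ 0).card ≤ M)
    {e : ℕ → E} {r : ℝ} (hr : 0 ≤ r) (he : ∀ k, a k ≠ 0 → ‖e k‖ ≤ r) :
    ‖τ.mix n a e‖ ≤ M * (2 * r) := by
  rw [Trunc.mix, ← sum_filter_of_ne (p := fun k => a k ≠ 0)]
  · refine (norm_sum_le _ _).trans ((sum_le_card_nsmul _ _ (2 * r) fun k hk => ?_).trans ?_)
    · have := he k (mem_filter.1 hk).2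
      refine (norm_sub_le _ _).trans ?_
      linarith [τ.norm_le (∑ j ∈ range (k + 1), a j) (e k), τ.norm_le (∑ j ∈ range k, a j) (e k)]
    · rw [nsmul_eq_mul]
      exact mul_le_mul_of_nonneg_right (by exact_mod_cast hM) (by linarith)
  · intro k _ hk h0
    apply hk
    rw [sum_range_succ, h0, add_zero, sub_self]

theorem Trunc.norm_mix_sub {n M : ℕ} {a : ℕ → ℝ} (ha : ∑ j ∈ range n, a j = 1)
    (hM : ((range n).filter fun k => a k ≠ 0).card ≤ M)
    {e : ℕ → E} {c : E} {r : ℝ} (hr : 0 ≤ r) (he : ∀ k, a k ≠ 0 → ‖e k - c‖ ≤ r) :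
    ‖τ.mix n a e - c‖ ≤ M * (2 * r) := by
  have := τ.norm_mix hM hr he
  rwa [← τ.mix_sub, τ.mix_const ha] at this

theorem Trunc.continuous_mix {K : Type} [TopologicalSpace K] (n : ℕ) (w : ℕ → C(K, ℝ))
    (e : ℕ → K → E) (he : ∀ k, Continuous (e k)) :
    Continuous fun x => τ.mix n (fun k => w k x) (fun k => e k x) := by
  have hs : ∀ k, Continuous fun x => ∑ j ∈ range k, w j x := fun k => by fun_prop
  refine continuous_finsetSum _ fun k _ => Continuous.sub ?_ ?_
  · exact τ.cont.comp ((hs (k + 1)).prodMk (he k))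
  · exact τ.cont.comp ((hs k).prodMk (he k))

end Mix

/-- Fine partitions of unity of bounded order. -/
def FinDim (K : Type) [PseudoMetricSpace K] (M : ℕ) : Prop :=
  ∀ δ > 0, ∃ (n : ℕ) (w : ℕ → C(K, ℝ)), (∀ x, ∑ k ∈ range n, w k x = 1) ∧
    (∀ x, ((range n).filter fun k => w k x ≠ 0).card ≤ M) ∧
    ∀ k x y, w k x ≠ 0 → w k y ≠ 0 → dist x y < δ

/-- One dimensional tent functions. -/
noncomputable def tent (y : ℝ) : ℝ := max 0 (min 1 (y + 1)) - max 0 (min 1 y)

theorem tent_ne {y : ℝ} (h : tent y ≠ 0) : |y| < 1 := by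
  by_contra hy
  apply h
  rw [not_lt, le_abs] at hy
  unfold tent
  rcases hy with hy | hy
  · rw [min_eq_left (by linarith), min_eq_left hy, sub_self]
  · rw [max_eq_left ((min_le_right _ _).trans (by linarith)),
      max_eq_left ((min_le_right _ _).trans (by linarith)), sub_self]

theorem sum_tent (N : ℕ) {y : ℝ} (h0 : 0 ≤ y) (h1 : y ≤ N) :
    ∑ i : Fin (N + 1), tent (y - (i : ℕ)) = 1 := by
  rw [Fin.sum_univ_eq_sum_range (fun i => tent (y - (i : ℕ)))]
  have := sum_range_sub' (fun i : ℕ => max 0 (min 1 (y - i + 1))) (N + 1)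
  simp only [Nat.cast_add, Nat.cast_one, Nat.cast_zero, sub_zero] at this
  rw [min_eq_left (by linarith : (1 : ℝ) ≤ y + 1), max_eq_right zero_le_one,
    max_eq_left ((min_le_right _ _).trans (by linarith : y - (N + 1) + 1 ≤ 0)), sub_zero] at this
  rw [← this]
  refine sum_congr rfl fun i _ => ?_
  unfold tent
  congr 3
  ring

theorem card_tent (N : ℕ) {y : ℝ} (h0 : 0 ≤ y) :
    (univ.filter fun i : Fin (N + 1) => |y - (i : ℕ)| < 1).card ≤ 2 := by
  refine le_trans (card_le_card_of_injOn (t := ({⌊y⌋₊, ⌊y⌋₊ + 1} : Finset ℕ)) (fun i => i.1)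
    (fun i hi => ?_) (fun i _ j _ h => Fin.ext h)) card_le_two
  have hi' := abs_lt.1 (mem_filter.1 hi).2
  have h1 := Nat.floor_le h0
  have h2 := Nat.lt_floor_add_one y
  have h3 : (i : ℕ) < ⌊y⌋₊ + 2 := by
    have : ((i : ℕ) : ℝ) < (⌊y⌋₊ + 2 : ℕ) := by push_cast; linarith [hi'.1]
    exact_mod_cast this
  have h4 : ⌊y⌋₊ < (i : ℕ) + 1 := by
    have : ((⌊y⌋₊ : ℕ) : ℝ) < ((i : ℕ) + 1 : ℕ) := by push_cast; linarith [hi'.2]
    exact_mod_cast this
  simp only [coe_insert, coe_singleton, Set.mem_insert_iff, Set.mem_singleton_iff]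
  omega

theorem finDim_of_coords {K : Type} [PseudoMetricSpace K] {d : ℕ} (j : Fin d → C(K, ℝ))
    (h0 : ∀ i x, 0 ≤ j i x) (h1 : ∀ i x, j i x ≤ 1)
    (hd : ∀ δ > 0, ∀ x y, (∀ i, |j i x - j i y| < δ) → dist x y < δ) : FinDim K (2 ^ d) := by
  intro δ hδ
  obtain ⟨N, hN⟩ := exists_nat_gt (2 / δ)
  have hN0 : (0 : ℝ) < N := lt_trans (by positivity) hN
  let W : (Fin d → Fin (N + 1)) → C(K, ℝ) := fun κ =>
    ⟨fun x => ∏ i, tent (N * j i x - (κ i : ℕ)), by unfold tent; fun_prop⟩
  have hW : ∀ κ x, W κ x ≠ 0 → ∀ i, |N * j i x - (κ i : ℕ)| < 1 := fun κ x h i =>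
    tent_ne (prod_ne_zero_iff.1 h i (mem_univ i))
  let e := Fintype.equivFin (Fin d → Fin (N + 1))
  refine ⟨Fintype.card (Fin d → Fin (N + 1)), fun k => if h : k < _ then W (e.symm ⟨k, h⟩) else 0,
    fun x => ?_, fun x => ?_, fun k x y hx hy => ?_⟩
  · rw [sum_range]
    simp only [Fin.is_lt, dif_pos, Fin.eta]
    rw [Equiv.sum_comp e.symm (fun κ => W κ x)]
    change ∑ κ : Fin d → Fin (N + 1), ∏ i, tent (N * j i x - (κ i : ℕ)) = 1
    rw [← Fintype.prod_sum (fun i (l : Fin (N + 1)) => tent (N * j i x - (l : ℕ)))]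
    exact prod_eq_one fun i _ => sum_tent N (mul_nonneg hN0.le (h0 i x))
      (mul_le_of_le_one_right hN0.le (h1 i x))
  · refine le_trans (card_le_card (t := (Fintype.piFinset fun i =>
      univ.filter fun l : Fin (N + 1) => |N * j i x - (l : ℕ)| < 1).image fun κ => (e κ).1)
      fun k hk => ?_) (card_image_le.trans ?_)
    · obtain ⟨hk1, hk2⟩ := mem_filter.1 hk
      rw [mem_range] at hk1
      simp only [dif_pos hk1] at hk2
      exact mem_image.2 ⟨e.symm ⟨k, hk1⟩, Fintype.mem_piFinset.2 fun i =>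
        mem_filter.2 ⟨mem_univ _, hW _ _ hk2 i⟩, by simp⟩
    · rw [Fintype.card_piFinset]
      refine (prod_le_pow_card _ _ 2 fun i _ => card_tent N (mul_nonneg hN0.le (h0 i x))).trans ?_
      simp
  · by_cases hk : k < Fintype.card (Fin d → Fin (N + 1))
    · simp only [dif_pos hk] at hx hy
      refine hd δ hδ x y fun i => ?_
      have a1 := abs_lt.1 (hW _ _ hx i)
      have a2 := abs_lt.1 (hW _ _ hy i)
      rw [div_lt_iff₀ hδ] at hN
      rw [abs_lt]
      constructor <;> nlinarith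
    · simp only [dif_neg hk] at hx
      exact absurd rfl hx

theorem surj_of_approx {G H : Type} [NormedAddCommGroup G] [NormedAddCommGroup H]
    [CompleteSpace G] (P : G →+ H) (hP : Continuous P) {C c : ℝ} (hc : 0 < c)
    (h : ∀ ε, 0 < ε → ε ≤ c → ∀ y, ‖y‖ < ε → ∃ x, ‖x‖ ≤ C * ε ∧ ‖y - P x‖ < ε / 2)
    (y : H) (hy : ‖y‖ < c) : ∃ x, P x = y := by
  choose! X hX using h
  let Y : ℕ → H := fun n => Nat.rec y (fun n z => z - P (X (c * (1 / 2) ^ n) z)) n
  have hpos : ∀ n : ℕ, 0 < c * (1 / 2) ^ n := fun n => by positivity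
  have hle : ∀ n : ℕ, c * (1 / 2) ^ n ≤ c := fun n =>
    mul_le_of_le_one_right hc.le (pow_le_one₀ (by norm_num) (by norm_num))
  have hY : ∀ n, ‖Y n‖ < c * (1 / 2) ^ n := fun n => by
    induction n with
    | zero => simpa [Y] using hy
    | succ n ih =>
      refine (hX _ (hpos n) (hle n) _ ih).2.trans_le (le_of_eq ?_)
      ring
  let x : ℕ → G := fun n => X (c * (1 / 2) ^ n) (Y n)
  have hx : Summable x := by
    refine Summable.of_norm_bounded (g := fun n => C * (c * (1 / 2) ^ n)) ?_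
      fun n => (hX _ (hpos n) (hle n) _ (hY n)).1
    exact (summable_geometric_two.mul_left c).mul_left C
  have hs : ∀ n, P (∑ i ∈ range n, x i) = y - Y n := fun n => by
    induction n with
    | zero => simp [Y]
    | succ n ih =>
      rw [sum_range_succ, map_add, ih]
      change _ = y - (Y n - P (x n))
      abel
  refine ⟨∑' n, x n, tendsto_nhds_unique ((hP.tendsto _).comp hx.hasSum.tendsto_sum_nat) ?_⟩
  have h0 : Filter.Tendsto Y Filter.atTop (nhds 0) := by
    refine squeeze_zero_norm (fun n => (hY n).le) ?_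
    simpa using (tendsto_pow_atTop_nhds_zero_of_lt_one (r := (1 / 2 : ℝ)) (by norm_num)
      (by norm_num)).const_mul c
  have : Filter.Tendsto (fun n => y - Y n) Filter.atTop (nhds y) := by
    simpa using h0.const_sub y
  exact this.congr fun n => (hs n).symm

/-- A quotient map of normed groups and the local structure of its kernel. -/
structure Loc (E E' Y : Type) [NormedAddCommGroup E] [NormedAddCommGroup E']
    [NormedAddCommGroup Y] where
  π : E →+ Y
  π_le : ∀ e, ‖π e‖ ≤ ‖e‖
  π_ex : ∀ y r, ‖y‖ < r → ∃ e, π e = y ∧ ‖e‖ < r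
  q : E' →+ E
  mem : ∀ β, π (q β) = 0
  norm_le : ∀ β, ‖q β‖ ≤ ‖β‖
  le_norm : ∀ β, ‖β‖ < 1 / 2 → ‖β‖ ≤ ‖q β‖
  ex : ∀ b, π b = 0 → ∀ r, r ≤ 1 / 2 → ‖b‖ < r → ∃ β, q β = b ∧ ‖β‖ < r

section Lift

variable {E E' Y : Type} [NormedAddCommGroup E] [NormedAddCommGroup E'] [NormedAddCommGroup Y]
  {K : Type} [PseudoMetricSpace K] [CompactSpace K] {M : ℕ}

theorem Loc.cont_π (L : Loc E E' Y) : Continuous L.π :=
  AddMonoidHomClass.continuous_of_bound L.π 1 (by simpa using L.π_le)

theorem Loc.cont_q (L : Loc E E' Y) : Continuous L.q :=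
  AddMonoidHomClass.continuous_of_bound L.q 1 (by simpa using L.norm_le)

theorem approx (τ : Trunc E) (τ' : Trunc E') (L : Loc E E' Y) (hK : FinDim K M) {ε δ : ℝ}
    (hδ : 0 < δ) (hδε : δ ≤ ε) (hε : ε ≤ 1 / 24) (f : C(K, Y)) (hf : ∀ x, ‖f x‖ < ε) :
    ∃ g : C(K, E), ∀ x, ‖g x‖ ≤ (1 + 12 * M + 24 * M ^ 2) * ε ∧
      ‖f x - L.π (g x)‖ ≤ (1 + 4 * M + 24 * M ^ 2) * δ := by
  obtain ⟨η, hη, hfη⟩ := Metric.uniformContinuous_iff.1
    (CompactSpace.uniformContinuous_of_continuous f.continuous) δ hδ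
  obtain ⟨n, w, hw1, hwM, hwd⟩ := hK η hη
  have he : ∀ k, ∃ e : E, ∀ x, w k x ≠ 0 → ‖e‖ < ε ∧ ‖f x - L.π e‖ < δ := fun k => by
    by_cases h : ∃ v, w k v ≠ 0
    · obtain ⟨v, hv⟩ := h
      obtain ⟨e, he, he'⟩ := L.π_ex _ _ (hf v)
      refine ⟨e, fun x hx => ⟨he', ?_⟩⟩
      rw [he, ← dist_eq_norm]
      exact hfη (hwd k x v hx hv)
    · exact ⟨0, fun x hx => absurd ⟨x, hx⟩ h⟩
  choose e he using he
  have hβ : ∀ k j, ∃ β : E', ∀ x, w k x ≠ 0 → w j x ≠ 0 →
      ‖β‖ < 4 * ε ∧ ‖e j - e k - L.q β‖ < 2 * δ := fun k j => by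
    by_cases h : ∃ v, w k v ≠ 0 ∧ w j v ≠ 0
    · obtain ⟨v, hk, hj⟩ := h
      have h1 : ‖L.π (e j - e k)‖ < 2 * δ := by
        have : L.π (e j - e k) = (f v - L.π (e k)) - (f v - L.π (e j)) := by
          rw [map_sub]; abel
        rw [this]
        linarith [norm_sub_le (f v - L.π (e k)) (f v - L.π (e j)), (he k v hk).2, (he j v hj).2]
      obtain ⟨s, hs, hs'⟩ := L.π_ex _ _ h1
      have hb : L.π (e j - e k - s) = 0 := by rw [map_sub, hs, sub_self]
      obtain ⟨β, hβ, hβ'⟩ := L.ex _ hb (4 * ε) (by linarith) (by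
        linarith [norm_sub_le (e j - e k) s, norm_sub_le (e j) (e k), (he k v hk).1, (he j v hj).1])
      exact ⟨β, fun _ _ _ => ⟨hβ', by rw [hβ, sub_sub_cancel]; exact hs'⟩⟩
    · exact ⟨0, fun x hk hj => absurd ⟨x, hk, hj⟩ h⟩
  choose β hβ using hβ
  let G : ℕ → K → E := fun k x => e k + L.q (τ'.mix n (fun j => w j x) (β k))
  have hG : ∀ k, Continuous (G k) := fun k =>
    continuous_const.add (L.cont_q.comp (τ'.continuous_mix n w (fun j _ => β k j)
      fun _ => continuous_const))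
  have hM : (0 : ℝ) ≤ M := Nat.cast_nonneg M
  refine ⟨⟨fun x => τ.mix n (fun k => w k x) (fun k => G k x), τ.continuous_mix n w G hG⟩,
    fun x => ?_⟩
  obtain ⟨l, -, hl⟩ := exists_ne_zero_of_sum_ne_zero (s := range n) (f := fun k => w k x)
    (by rw [hw1 x]; exact one_ne_zero)
  have h1 : ∀ k, w k x ≠ 0 → ‖G k x - G l x‖ ≤ 2 * δ + M * (2 * (6 * δ)) := fun k hk => by
    have h2 : ‖τ'.mix n (fun j => w j x) (fun j => β k j - β l j) - β k l‖ ≤ M * (2 * (6 * δ)) := by
      refine τ'.norm_mix_sub (hw1 x) (hwM x) (by linarith) fun j hj => ?_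
      have a1 := hβ k j x hk hj
      have a2 := hβ l j x hl hj
      have a3 := hβ k l x hk hl
      refine (L.le_norm _ ?_).trans ?_
      · linarith [norm_sub_le (β k j - β l j) (β k l), norm_sub_le (β k j) (β l j), a1.1, a2.1,
          a3.1]
      · have : L.q (β k j - β l j - β k l) = (e j - e l - L.q (β l j)) +
            (e l - e k - L.q (β k l)) - (e j - e k - L.q (β k j)) := by
          simp only [map_sub]; abel
        rw [this]
        linarith [norm_sub_le (e j - e l - L.q (β l j) + (e l - e k - L.q (β k l)))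
          (e j - e k - L.q (β k j)), norm_add_le (e j - e l - L.q (β l j))
          (e l - e k - L.q (β k l)), a1.2, a2.2, a3.2]
    have h3 : G k x - G l x = L.q (τ'.mix n (fun j => w j x) (fun j => β k j - β l j) - β k l) -
        (e l - e k - L.q (β k l)) := by
      rw [← τ'.mix_sub]
      simp only [G, map_sub]
      abel
    rw [h3]
    linarith [norm_sub_le (L.q (τ'.mix n (fun j => w j x) (fun j => β k j - β l j) - β k l))
      (e l - e k - L.q (β k l)), (hβ k l x hk hl).2, (L.norm_le _).trans h2]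
  have h4 := τ.norm_mix_sub (hw1 x) (hwM x) (by positivity) h1
  have h5 : ‖G l x‖ ≤ ε + M * (2 * (4 * ε)) := by
    have := τ'.norm_mix (hwM x) (e := β l) (r := 4 * ε) (by linarith)
      fun j hj => (hβ l j x hl hj).1.le
    linarith [norm_add_le (e l) (L.q (τ'.mix n (fun j => w j x) (β l))), (he l x hl).1,
      (L.norm_le _).trans this]
  have h6 : L.π (G l x) = L.π (e l) := by
    simp only [G, map_add, L.mem, add_zero]
  set g := τ.mix n (fun k => w k x) (fun k => G k x)
  change ‖g‖ ≤ _ ∧ ‖f x - L.π g‖ ≤ _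
  constructor
  · have h7 : (4 * M + 24 * M ^ 2) * δ ≤ (4 * M + 24 * M ^ 2) * ε :=
      mul_le_mul_of_nonneg_left hδε (by positivity)
    have := norm_add_le (g - G l x) (G l x)
    rw [sub_add_cancel] at this
    nlinarith
  · have h7 : f x - L.π g = (f x - L.π (e l)) - L.π (g - G l x) := by
      rw [map_sub, h6]; abel
    rw [h7]
    nlinarith [norm_sub_le (f x - L.π (e l)) (L.π (g - G l x)), (he l x hl).2,
      L.π_le (g - G l x)]

/-- Composition with the quotient map. -/
def Loc.map (L : Loc E E' Y) (K : Type) [TopologicalSpace K] : C(K, E) →+ C(K, Y) where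
  toFun g := ⟨fun x => L.π (g x), L.cont_π.comp g.continuous⟩
  map_zero' := by ext x; exact map_zero L.π
  map_add' _ _ := by ext x; exact map_add L.π _ _

theorem exists_lift [CompleteSpace E] [ContractibleSpace K] (τ : Trunc E) (τ' : Trunc E')
    (L : Loc E E' Y) (hK : FinDim K M) (f : C(K, Y)) :
    ∃ g : C(K, E), ∀ x, L.π (g x) = f x := by
  have hM : (0 : ℝ) ≤ M := Nat.cast_nonneg M
  have hP : Continuous (L.map K) :=
    ContinuousMap.continuous_postcomp (⟨L.π, L.cont_π⟩ : C(E, Y))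
  have h1 := surj_of_approx (L.map K) hP (C := 1 + 12 * M + 24 * M ^ 2) (c := 1 / 24)
    (by norm_num) (fun ε hε hε' y hy => by
      have hD : (1 : ℝ) ≤ 1 + 4 * M + 24 * M ^ 2 := by nlinarith
      obtain ⟨g, hg⟩ := approx τ τ' L hK (δ := ε / 4 / (1 + 4 * M + 24 * M ^ 2)) (by positivity)
        ((div_le_self (by positivity) hD).trans (by linarith)) hε' y
        (fun x => (y.norm_coe_le_norm x).trans_lt hy)
      refine ⟨g, (g.norm_le (by positivity)).2 fun x => (hg x).1, ?_⟩
      refine lt_of_le_of_lt (((y - L.map K g).norm_le (C := ε / 4) (by positivity)).2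
        fun x => (hg x).2.trans (le_of_eq ?_)) (by linarith)
      field_simp)
  have h2 : IsOpen ((L.map K).range : Set C(K, Y)) :=
    AddSubgroup.isOpen_of_mem_nhds _ (g := 0) (Filter.mem_of_superset
      (Metric.ball_mem_nhds (0 : C(K, Y)) (by norm_num : (0 : ℝ) < 1 / 24))
      fun y hy => h1 y (by simpa using hy))
  have h3 : IsClopen ((L.map K).range : Set C(K, Y)) :=
    ⟨AddSubgroup.isClosed_of_isOpen _ h2, h2⟩
  obtain ⟨y, ⟨H⟩⟩ := (id_nullhomotopic K).comp_right f
  have h4 := (h3.preimage H.curry.continuous).eq_univ ⟨1, by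
    obtain ⟨e, rfl, -⟩ := L.π_ex y _ (lt_add_one _)
    exact ⟨ContinuousMap.const K e, by ext x; exact (H.apply_one x).symm⟩⟩
  obtain ⟨g, hg⟩ : H.curry 0 ∈ (L.map K).range := by
    have : (0 : unitInterval) ∈ H.curry ⁻¹' ((L.map K).range : Set C(K, Y)) := by
      rw [h4]; trivial
    exact this
  exact ⟨g, fun x => (DFunLike.congr_fun hg x).trans (H.apply_zero x)⟩

end Lift

end Pool.Agent.Lib.MP_339d31_lc
end

-- part Pool.Agent.Lib.MP_339d31_lc.Spaces
section

/-! Normed groups of integrable functions modulo constants. -/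

namespace Pool.Agent.Lib.MP_339d31_lc

open MeasureTheory unitInterval

/-- The group with two elements and the discrete norm. -/
def D : Type := ZMod 2

instance : AddCommGroup D := inferInstanceAs (AddCommGroup (ZMod 2))
instance : DecidableEq D := inferInstanceAs (DecidableEq (ZMod 2))
instance : Fintype D := inferInstanceAs (Fintype (ZMod 2))

noncomputable instance : NormedAddCommGroup D :=
  AddGroupNorm.toNormedAddCommGroup
    { toFun := fun x => if x = 0 then 0 else 1
      map_zero' := if_pos rfl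
      add_le' := fun x y => by
        by_cases hx : x = 0
        · simp [hx]
        · rw [if_neg hx]
          split_ifs <;> norm_num
      neg' := fun x => by simp
      eq_zero_of_map_eq_zero' := fun x h => by
        by_contra hx
        simp [hx] at h }

theorem D.norm_of_ne {x : D} (h : x ≠ 0) : ‖x‖ = 1 := if_neg h

theorem D.add_self (x : D) : x + x = 0 := by
  revert x
  change ∀ x : ZMod 2, x + x = 0
  decide

section

variable (A : Type) [NormedAddCommGroup A]

/-- Integrable functions on the unit interval. -/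
abbrev LA : Type := Lp A 1 (volume : Measure I)

/-- Constant functions. -/
noncomputable def cst : A →+ LA A := Lp.const 1 volume

variable {A}

theorem norm_cst (a : A) : ‖cst A a‖ = ‖a‖ := by
  rw [cst, Lp.norm_const' _ _ _ one_ne_zero ENNReal.one_ne_top]
  simp

theorem isometry_cst : Isometry (cst A) := AddMonoidHomClass.isometry_of_norm _ norm_cst

instance [CompleteSpace A] : IsClosed ((cst A).range : Set (LA A)) :=
  isometry_cst.isClosedEmbedding.isClosed_range

theorem meas_le (t : ℝ) : MeasurableSet {s : I | (s : ℝ) ≤ t} :=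
  measurableSet_le measurable_subtype_coe measurable_const

/-- Truncation of an integrable function. -/
noncomputable def cut (t : ℝ) (f : LA A) : LA A :=
  ((Lp.memLp f).indicator (meas_le t)).toLp _

theorem cut_ae (t : ℝ) (f : LA A) : cut t f =ᵐ[volume] {s : I | (s : ℝ) ≤ t}.indicator f :=
  MemLp.coeFn_toLp _

theorem cut_add (t : ℝ) (f g : LA A) : cut t (f + g) = cut t f + cut t g := by
  ext1
  filter_upwards [cut_ae t (f + g), cut_ae t f, cut_ae t g, Lp.coeFn_add f g,
    Lp.coeFn_add (cut t f) (cut t g)] with s h1 h2 h3 h4 h5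
  rw [h1, h5, Pi.add_apply, h2, h3]
  by_cases hs : s ∈ {s : I | (s : ℝ) ≤ t}
  · simp only [Set.indicator_of_mem hs, h4, Pi.add_apply]
  · simp only [Set.indicator_of_notMem hs, add_zero]

theorem norm_cut (t : ℝ) (f : LA A) : ‖cut t f‖ ≤ ‖f‖ := by
  refine Lp.norm_le_norm_of_ae_le ?_
  filter_upwards [cut_ae t f] with s h
  rw [h]
  exact norm_indicator_le_norm_self _ _

theorem ae_ne (t : ℝ) : ∀ᵐ s : I, (s : ℝ) ≠ t := by
  rw [ae_iff]
  refine Set.Subsingleton.measure_zero (fun a ha b hb => Subtype.ext ?_) _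
  simp only [ne_eq, not_not, Set.mem_ofPred_eq] at ha hb
  rw [ha, hb]

theorem continuous_cut (f : LA A) : Continuous fun t => cut t f := by
  refine continuous_iff_continuousAt.2 fun t₀ => ?_
  rw [ContinuousAt, tendsto_iff_norm_sub_tendsto_zero]
  let G : ℝ → I → ℝ := fun t s =>
    ‖{s : I | (s : ℝ) ≤ t}.indicator f s - {s : I | (s : ℝ) ≤ t₀}.indicator f s‖
  have h1 : ∀ t, ‖cut t f - cut t₀ f‖ = ∫ s, G t s := fun t => by
    rw [L1.norm_eq_integral_norm]
    refine integral_congr_ae ?_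
    filter_upwards [cut_ae t f, cut_ae t₀ f, Lp.coeFn_sub (cut t f) (cut t₀ f)] with s h2 h3 h4
    rw [h4, Pi.sub_apply, h2, h3]
  have h2 : ContinuousAt (fun t => ∫ s, G t s) t₀ := by
    refine continuousAt_of_dominated (bound := fun s => ‖f s‖ + ‖f s‖) ?_ ?_ ?_ ?_
    · exact Filter.Eventually.of_forall fun t =>
        (((Lp.aestronglyMeasurable f).indicator (meas_le t)).sub
          ((Lp.aestronglyMeasurable f).indicator (meas_le t₀))).norm
    · refine Filter.Eventually.of_forall fun t => Filter.Eventually.of_forall fun s => ?_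
      rw [norm_norm]
      exact (norm_sub_le _ _).trans
        (add_le_add (norm_indicator_le_norm_self _ _) (norm_indicator_le_norm_self _ _))
    · exact (L1.integrable_coeFn f).norm.add (L1.integrable_coeFn f).norm
    · filter_upwards [ae_ne t₀] with s hs
      refine (continuousAt_const (y := (0 : ℝ))).congr ?_
      rcases lt_or_gt_of_ne hs with h | h
      · filter_upwards [Ioi_mem_nhds h] with t ht
        simp only [G]
        rw [Set.indicator_of_mem (show s ∈ {s : I | (s : ℝ) ≤ t} from le_of_lt (show (s : ℝ) < t from ht)),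
          Set.indicator_of_mem (show s ∈ {s : I | (s : ℝ) ≤ t₀} from h.le), sub_self, norm_zero]
      · filter_upwards [Iio_mem_nhds h] with t ht
        simp only [G]
        rw [Set.indicator_of_notMem
            (show s ∉ {s : I | (s : ℝ) ≤ t} from not_le.2 (show t < (s : ℝ) from ht)),
          Set.indicator_of_notMem (show s ∉ {s : I | (s : ℝ) ≤ t₀} from not_le.2 h), sub_self,
          norm_zero]
  simp only [h1]
  have h3 : ∫ s, G t₀ s = 0 := by simp [G]
  rw [← h3]
  exact h2

variable (A)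

/-- The contraction of the space of integrable functions. -/
noncomputable def trunc : Trunc (LA A) where
  h t := AddMonoidHom.mk' (cut t) (cut_add t)
  cont := continuous_prod_of_continuous_lipschitzWith' _ 1
    (fun t => AddMonoidHomClass.lipschitz_of_bound_nnnorm (AddMonoidHom.mk' (cut t) (cut_add t)) 1
      fun f => by
        rw [one_mul]
        exact norm_cut t f)
    continuous_cut
  zero f := by
    ext1
    filter_upwards [cut_ae 0 f, Lp.coeFn_zero A 1 (volume : Measure I), ae_ne 0] with s h1 h2 h3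
    refine h1.trans (Eq.trans ?_ h2.symm)
    exact Set.indicator_of_notMem
      (show s ∉ {s : I | (s : ℝ) ≤ 0} from fun h => h3 (le_antisymm h s.2.1)) f
  one f := by
    ext1
    filter_upwards [cut_ae 1 f] with s h1
    exact h1.trans (Set.indicator_of_mem (show s ∈ {s : I | (s : ℝ) ≤ 1} from s.2.2) _)
  norm_le := norm_cut

variable [CompleteSpace A]

/-- Integrable functions modulo constants. -/
def QA : Type := LA A ⧸ (cst A).range

noncomputable instance : NormedAddCommGroup (QA A) :=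
  inferInstanceAs (NormedAddCommGroup (LA A ⧸ (cst A).range))

instance : CompleteSpace (QA A) := inferInstanceAs (CompleteSpace (LA A ⧸ (cst A).range))

/-- The quotient map. -/
noncomputable def prj : LA A →+ QA A := QuotientAddGroup.mk' _

variable {A}

theorem prj_le (e : LA A) : ‖prj A e‖ ≤ ‖e‖ := QuotientAddGroup.norm_mk_le_norm

theorem prj_ex (y : QA A) (r : ℝ) (h : ‖y‖ < r) : ∃ e, prj A e = y ∧ ‖e‖ < r :=
  QuotientAddGroup.norm_lt_iff.1 h

theorem prj_eq_zero {e : LA A} : prj A e = 0 ↔ ∃ a, cst A a = e :=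
  QuotientAddGroup.eq_zero_iff e

omit [CompleteSpace A] in
theorem LA.add_self (h : ∀ a : A, a + a = 0) (f : LA A) : f + f = 0 := by
  ext1
  filter_upwards [Lp.coeFn_add f f, Lp.coeFn_zero A 1 (volume : Measure I)] with s h1 h2
  rw [h1, h2]
  exact h _

theorem QA.add_self (h : ∀ a : A, a + a = 0) (y : QA A) : y + y = 0 := by
  obtain ⟨e, rfl, -⟩ := prj_ex y _ (lt_add_one _)
  rw [← map_add, LA.add_self h, map_zero]

end

/-- The trivial contraction. -/
def truncUnit : Trunc PUnit where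
  h _ := 0
  cont := continuous_const
  zero _ := rfl
  one _ := rfl
  norm_le _ _ := le_rfl

/-- The first quotient. -/
noncomputable def loc₁ : Loc (LA D) PUnit (QA D) where
  π := prj D
  π_le := prj_le
  π_ex := prj_ex
  q := 0
  mem _ := map_zero _
  norm_le _ := by simp
  le_norm _ _ := by simp
  ex b hb r hr hbr := by
    obtain ⟨a, rfl⟩ := prj_eq_zero.1 hb
    rw [norm_cst] at hbr
    have : a = 0 := by
      by_contra h
      rw [D.norm_of_ne h] at hbr
      linarith
    subst this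
    exact ⟨0, (map_zero _).symm, by simpa using hbr⟩

/-- The second quotient. -/
noncomputable def loc₂ : Loc (LA (QA D)) (LA D) (QA (QA D)) where
  π := prj (QA D)
  π_le := prj_le
  π_ex := prj_ex
  q := (cst (QA D)).comp (prj D)
  mem _ := prj_eq_zero.2 ⟨_, rfl⟩
  norm_le β := (norm_cst _).trans_le (prj_le β)
  le_norm β hβ := by
    refine le_of_not_gt fun h => ?_
    obtain ⟨β', h1, h2⟩ := prj_ex (prj D β) _ ((norm_cst _).symm.trans_lt h)
    obtain ⟨a, ha⟩ := prj_eq_zero.1 (show prj D (β' - β) = 0 by rw [map_sub, h1, sub_self])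
    by_cases h0 : a = 0
    · rw [h0, map_zero, eq_comm, sub_eq_zero] at ha
      rw [ha] at h2
      exact lt_irrefl _ h2
    · have := norm_sub_le β' β
      rw [← ha, norm_cst, D.norm_of_ne h0] at this
      linarith
  ex b hb r _ hbr := by
    obtain ⟨a, rfl⟩ := prj_eq_zero.1 hb
    rw [norm_cst] at hbr
    obtain ⟨β, rfl, h⟩ := prj_ex a r hbr
    exact ⟨β, rfl, h⟩

theorem finDim_I : FinDim I (2 ^ 1) :=
  finDim_of_coords (fun _ => ⟨fun x => x, continuous_subtype_val⟩) (fun _ x => x.2.1)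
    (fun _ x => x.2.2) fun _ _ _ _ h => h 0

theorem finDim_II : FinDim (I × I) (2 ^ 2) :=
  finDim_of_coords ![⟨fun x => x.1, by fun_prop⟩, ⟨fun x => x.2, by fun_prop⟩]
    (fun i x => by fin_cases i; exacts [x.1.2.1, x.2.2.1])
    (fun i x => by fin_cases i; exacts [x.1.2.2, x.2.2.2])
    fun _ _ _ _ h => max_lt (h 0) (h 1)

theorem finDim_simplex (m : ℕ) : FinDim (stdSimplex ℝ (Fin m)) (2 ^ m) :=
  finDim_of_coords (fun i => ⟨fun x => x.1 i, (continuous_apply i).comp continuous_subtype_val⟩)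
    (fun i x => x.2.1 i)
    (fun i x => (mem_Icc_of_mem_stdSimplex x.2 i).2)
    fun _ hδ _ _ h => (dist_pi_lt_iff hδ).2 h

instance : ContractibleSpace I := (convex_Icc (0 : ℝ) 1).contractibleSpace ⟨0, le_rfl, zero_le_one⟩

instance (m : ℕ) : ContractibleSpace (stdSimplex ℝ (Fin (m + 1))) :=
  (convex_stdSimplex ℝ _).contractibleSpace ⟨_, single_mem_stdSimplex ℝ 0⟩

theorem simplyConnected₂ : SimplyConnectedSpace (QA (QA D)) := by
  let τ := trunc (QA D)
  let τ' := trunc D
  have hπ := loc₂.cont_π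
  have hq := loc₂.cont_q
  rw [simply_connected_iff_loops_nullhomotopic]
  constructor
  · refine pathConnectedSpace_iff_univ.2 ⟨0, trivial, fun y _ => ?_⟩
    obtain ⟨e, rfl, -⟩ := prj_ex y _ (lt_add_one _)
    refine ⟨⟨⟨fun t => loc₂.π (τ.h t e), hπ.comp (τ.cont.comp
      (continuous_subtype_val.prodMk continuous_const))⟩, ?_, ?_⟩, fun _ => trivial⟩
    · change loc₂.π (τ.h 0 e) = 0
      rw [τ.zero, map_zero]
    · change loc₂.π (τ.h 1 e) = _
      rw [τ.one]
      rfl
  · intro x γ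
    obtain ⟨g, hg⟩ := exists_lift τ τ' loc₂ finDim_I γ.toContinuousMap
    have h0 : loc₂.π (g 0) = x := (hg 0).trans γ.source
    have h1 : loc₂.π (g 1) = x := (hg 1).trans γ.target
    obtain ⟨a, ha⟩ := prj_eq_zero.1 (show loc₂.π (g 1 - g 0) = 0 by rw [map_sub, h0, h1, sub_self])
    obtain ⟨β, rfl, -⟩ := prj_ex a _ (lt_add_one _)
    let k : C(I, LA (QA D)) := ⟨fun t => g t - g 0 - loc₂.q (τ'.h t β),
      (g.continuous.sub continuous_const).sub (hq.comp (τ'.cont.comp
        (continuous_subtype_val.prodMk continuous_const)))⟩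
    have k0 : k 0 = 0 := by
      change g 0 - g 0 - loc₂.q (τ'.h 0 β) = 0
      rw [τ'.zero, sub_self, loc₂.q.map_zero, sub_zero]
    have k1 : k 1 = 0 := by
      change g 1 - g 0 - loc₂.q (τ'.h 1 β) = 0
      rw [τ'.one, ← ha]
      exact sub_self _
    refine Path.Homotopic.symm ⟨⟨⟨⟨fun p => x + loc₂.π (τ.h p.1 (k p.2)), continuous_const.add
      (hπ.comp (τ.cont.comp ((continuous_subtype_val.comp continuous_fst).prodMk
        (k.continuous.comp continuous_snd))))⟩, fun t => ?_, fun t => ?_⟩, fun s t ht => ?_⟩⟩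
    · change x + loc₂.π (τ.h 0 (k t)) = x
      rw [τ.zero, map_zero, add_zero]
    · change x + loc₂.π (τ.h 1 (g t - g 0 - loc₂.q (τ'.h t β))) = γ t
      rw [τ.one, map_sub, map_sub, loc₂.mem, h0, hg, sub_zero, add_sub_cancel]
      rfl
    · change x + loc₂.π (τ.h s (k t)) = x
      rcases ht with rfl | rfl
      · rw [k0, map_zero, map_zero, add_zero]
      · rw [k1, map_zero, map_zero, add_zero]

theorem const_of_ker (k : C(I, LA D)) (hk : ∀ t, prj D (k t) = 0) : k 0 = k 1 := by
  choose a ha using fun t => prj_eq_zero.1 (hk t)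
  have hc : Continuous a := isometry_cst.isEmbedding.continuous_iff.2
    (k.continuous.congr fun t => (ha t).symm)
  rw [← ha, ← ha, PreconnectedSpace.constant inferInstance hc (x := 0) (y := 1)]

theorem not_simplyConnected₁ : ¬ SimplyConnectedSpace (QA D) := by
  intro h
  let τ := trunc D
  let o : LA D := cst D (1 : ZMod 2)
  let c : C(I, LA D) := ⟨fun t => τ.h t o,
    τ.cont.comp (continuous_subtype_val.prodMk continuous_const)⟩
  have c0 : c 0 = 0 := τ.zero o
  have c1 : c 1 = o := τ.one o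
  let γ : Path (0 : QA D) 0 := ⟨⟨fun t => prj D (c t), loc₁.cont_π.comp c.continuous⟩,
    by change prj D (c 0) = 0; rw [c0, map_zero],
    by change prj D (c 1) = 0; rw [c1]; exact prj_eq_zero.2 ⟨_, rfl⟩⟩
  obtain ⟨H⟩ := SimplyConnectedSpace.paths_homotopic γ (Path.refl 0)
  obtain ⟨g, hg⟩ := exists_lift τ truncUnit loc₁ finDim_II H.toContinuousMap
  have e1 := const_of_ker ⟨fun s => g (s, 0), by fun_prop⟩ fun s => (hg _).trans (H.source s)
  have e2 := const_of_ker ⟨fun s => g (s, 1), by fun_prop⟩ fun s => (hg _).trans (H.target s)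
  have e3 := const_of_ker ⟨fun t => g (1, t), by fun_prop⟩ fun t => (hg _).trans (H.apply_one t)
  have e4 := const_of_ker ⟨fun t => g (0, t) - c t, by fun_prop⟩ fun t => by
    change prj D (g (0, t) - c t) = 0
    rw [map_sub, sub_eq_zero]
    exact (hg _).trans (H.apply_zero t)
  change g (0, 0) = g (1, 0) at e1
  change g (0, 1) = g (1, 1) at e2
  change g (1, 0) = g (1, 1) at e3
  change g (0, 0) - c 0 = g (0, 1) - c 1 at e4
  rw [c0, c1, e1, e2, e3, sub_right_inj] at e4
  have := congrArg norm e4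
  rw [norm_zero, norm_cst, D.norm_of_ne (show (1 : ZMod 2) ≠ 0 from one_ne_zero)] at this
  exact zero_ne_one this

end Pool.Agent.Lib.MP_339d31_lc
end
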