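import Mathlib
import Pool.Agent.Lib.MP_339d31_lc.Inj
import Pool.Agent.Lib.MP_339d31_lc.Spaces

-- part Pool.Agent.Lib.MP_339d31_lc.Cochain
section

/-! Cochains on standard simplices and the Eilenberg-MacLane property from comparison data. -/

namespace Pool.Agent.Lib.MP_339d31_lc

open CategoryTheory Limits Opposite Simplicial MonoidalCategory CartesianMonoidalCategory
  AlgebraicTopology

/-- The free simplicial vector space. -/
noncomputable abbrev fr (Z : SSet.{0}) : SV :=
  ((SimplicialObject.whiskering _ _).obj (ModuleCat.free F)).obj Z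

/-- The linear functional given by a cochain. -/
noncomputable def lin {Z : SSet.{0}} {p : ℕ} (κ : Z _⦋p⦌ → F) :
    (fr Z) _⦋p⦌ ⟶ ModuleCat.of F F := ModuleCat.freeDesc (M := ModuleCat.of F F) (↾κ)

theorem lin_apply {Z : SSet.{0}} {p : ℕ} (κ : Z _⦋p⦌ → F) (z : Z _⦋p⦌) :
    lin κ (ModuleCat.freeMk z) = κ z := ModuleCat.freeDesc_apply _ _

theorem neg_one_pow_smul (i : ℕ) (x : F) : ((-1 : ℤ) ^ i) • x = x := by
  rcases Nat.even_or_odd i with h | h
  · rw [h.neg_one_pow, one_smul]
  · rw [h.neg_one_pow, neg_smul, one_smul, neg_eq_iff_add_eq_zero, add_self]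

theorem objD_comp {Z : SSet.{0}} {p : ℕ} (L : (fr Z) _⦋p⦌ ⟶ ModuleCat.of F F) :
    AlternatingFaceMapComplex.objD (fr Z) p ≫ L =
      lin (cob (fun z => L (ModuleCat.freeMk z))) := by
  apply ModuleCat.free_hom_ext
  intro z
  refine Eq.trans ?_ (lin_apply _ z).symm
  have key : ∀ (x : (fr Z) _⦋p + 1⦌), (AlternatingFaceMapComplex.objD (fr Z) p ≫ L) x =
      ∑ i : Fin (p + 2), L ((fr Z).δ i x) := fun x => by
    rw [AlternatingFaceMapComplex.objD, Preadditive.sum_comp]
    change ModuleCat.Hom.hom _ x = _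
    rw [ModuleCat.hom_sum, LinearMap.sum_apply]
    refine Finset.sum_congr rfl fun i _ => ?_
    rw [Preadditive.zsmul_comp, ModuleCat.hom_zsmul, LinearMap.smul_apply, neg_one_pow_smul]
    rfl
  refine (key _).trans (Finset.sum_congr rfl fun i _ => ?_)
  exact congrArg L (ModuleCat.free_map_apply (Z.δ i) z)

theorem objD_lin {Z : SSet.{0}} {p : ℕ} (κ : Z _⦋p⦌ → F) :
    AlternatingFaceMapComplex.objD (fr Z) p ≫ lin κ = lin (cob κ) := by
  rw [objD_comp]
  congr 2
  funext z
  exact lin_apply _ _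

theorem cob_cob {Z : SSet.{0}} {p : ℕ} (κ : Z _⦋p⦌ → F) : IsCoc (cob κ) := fun z => by
  rw [← lin_apply (cob (cob κ)), ← objD_lin, ← objD_lin, ← Category.assoc,
    AlternatingFaceMapComplex.d_squared, zero_comp]
  rfl

theorem Htpy.isCob {Z S : SSet.{0}} {f g : Z ⟶ S} (h : Htpy f g) {p : ℕ} {u : S _⦋p + 1⦌ → F}
    (hu : IsCoc u) : IsCob (fun z => u (f.app _ z) + u (g.app _ z)) := by
  obtain ⟨H, h0, h1⟩ := h
  let H' : SSet.Homotopy f g := ⟨H, h0, h1, by ext _ ⟨⟨_, ⟨⟩⟩, _⟩⟩
  let K := (H'.toSimplicialObjectHomotopy.whiskerRight (ModuleCat.free F)).toChainHomotopy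
  have hc := K.comm (p + 1)
  rw [Homotopy.dNext_succ_chainComplex, Homotopy.prevD_chainComplex,
    alternatingFaceMapComplex_obj_d, alternatingFaceMapComplex_obj_d] at hc
  have hz : AlternatingFaceMapComplex.objD (fr S) (p + 1) ≫ lin u = 0 := by
    rw [objD_lin]
    apply ModuleCat.free_hom_ext
    intro z
    exact (lin_apply _ z).trans (hu z)
  let fm : ∀ k : Z ⟶ S, (fr Z) _⦋p + 1⦌ ⟶ (fr S) _⦋p + 1⦌ := fun k =>
    (ModuleCat.free F).map (k.app _)
  have hc' : fm f ≫ lin u =
      AlternatingFaceMapComplex.objD (fr Z) p ≫ (K.hom p (p + 1) ≫ lin u) + fm g ≫ lin u := by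
    have := hc =≫ lin u
    erw [Preadditive.add_comp, Preadditive.add_comp, Category.assoc, Category.assoc, hz, comp_zero,
      add_zero] at this
    exact this
  rw [objD_comp] at hc'
  refine ⟨fun z => (K.hom p (p + 1) ≫ lin u) (ModuleCat.freeMk z), fun z => ?_⟩
  have h2 := ConcreteCategory.congr_hom hc' (ModuleCat.freeMk z)
  have h3 : ∀ k : Z ⟶ S, (fm k ≫ lin u) (ModuleCat.freeMk z) = u (k.app _ z) := fun k =>
    (congrArg (lin u) (ModuleCat.free_map_apply _ z)).trans (lin_apply _ _)
  have h4 : u (f.app _ z) = cob (fun z => (K.hom p (p + 1) ≫ lin u) (ModuleCat.freeMk z)) z +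
      u (g.app _ z) := by
    rw [← h3, ← h3, ← lin_apply (cob _)]
    exact h2
  beta_reduce
  rw [h4, add_assoc, add_self, add_zero]

/-- Cochains on the standard simplices. -/
def Cn (i : ℕ) : SV where
  obj m := ModuleCat.of F ((⦋i⦌ ⟶ m.unop) → F)
  map θ := ModuleCat.ofHom (LinearMap.funLeft F F (fun η => η ≫ θ.unop))
  map_id m := by ext c η; simp [LinearMap.funLeft]
  map_comp θ θ' := by ext c η; simp [LinearMap.funLeft]

/-- Cocycles on a standard simplex. -/
def zsub (i : ℕ) (m : SimplexCategory) : Submodule F ((⦋i⦌ ⟶ m) → F) where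
  carrier := {c | ∀ η : ⦋i + 1⦌ ⟶ m, ∑ j : Fin (i + 2), c (SimplexCategory.δ j ≫ η) = 0}
  add_mem' {a b} ha hb η := by
    simp only [Pi.add_apply, Finset.sum_add_distrib, ha η, hb η, add_zero]
  zero_mem' η := by simp
  smul_mem' r c hc η := by
    simp only [Pi.smul_apply, ← Finset.smul_sum, hc η, smul_zero]

/-- Cocycles on the standard simplices. -/
def Zn (i : ℕ) : SV where
  obj m := ModuleCat.of F (zsub i m.unop)
  map {m m'} θ := ModuleCat.ofHom
    { toFun := fun c => ⟨fun η => c.1 (η ≫ θ.unop), fun η => by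
        simpa only [Category.assoc] using c.2 (η ≫ θ.unop)⟩
      map_add' := fun _ _ => rfl
      map_smul' := fun _ _ => rfl }
  map_id m := by ext c η; simp
  map_comp θ θ' := by ext c η; simp

/-- The short exact sequence of cochains. -/
noncomputable def sesC (i : ℕ) : SES (Zn i) (Cn i) (Zn (i + 1)) where
  ι := { app := fun m => ModuleCat.ofHom (zsub i m.unop).subtype
         naturality := fun _ _ _ => rfl }
  π := { app := fun m => ModuleCat.ofHom
          { toFun := fun c => ⟨fun η => ∑ j : Fin (i + 2), c (SimplexCategory.δ j ≫ η),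
              fun η => cob_cob (Z := yoneda.obj m.unop) c η⟩
            map_add' := fun a b => by
              apply Subtype.ext
              funext η
              exact Finset.sum_add_distrib (M := F) (s := Finset.univ)
                (f := fun j : Fin (i + 2) => a (SimplexCategory.δ j ≫ η))
                (g := fun j : Fin (i + 2) => b (SimplexCategory.δ j ≫ η))
            map_smul' := fun r a => by
              apply Subtype.ext
              funext η
              exact (Finset.smul_sum (r := r) (s := Finset.univ)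
                (f := fun j : Fin (i + 2) => a (SimplexCategory.δ j ≫ η))).symm }
         naturality := fun _ _ θ => by
           ext c
           apply Subtype.ext
           funext η
           change ∑ j : Fin (i + 2), c ((SimplexCategory.δ j ≫ η) ≫ θ.unop) =
             ∑ j : Fin (i + 2), c (SimplexCategory.δ j ≫ η ≫ θ.unop)
           simp only [Category.assoc] }
  inj m := Subtype.val_injective
  surj m c := by
    obtain ⟨m⟩ := m
    induction m using SimplexCategory.rec with | _ m => ?_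
    refine ⟨fun η => c.1 (cone η), Subtype.ext (funext fun η => ?_)⟩
    have := cone_spec (Z := yoneda.obj ⦋m⦌) (g := c.1) c.2 (𝟙 _) η
    change ∑ j : Fin (i + 2), c.1 (cone (SimplexCategory.δ j ≫ η)) = c.1 η
    simpa using this
  zero := by
    ext m c
    apply Subtype.ext
    funext η
    exact c.2 η
  exact m e he := ⟨⟨e, fun η => congrFun (congrArg Subtype.val he) η⟩, rfl⟩

theorem injective_Cn (i : ℕ) : Injective (Cn i) where
  factors {M M'} φ j _ := by
    obtain ⟨ψ, hψ⟩ := (injective_mod (ModuleCat.of F F)).factors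
      (φ.app (op ⦋i⦌) ≫ ModuleCat.ofHom (LinearMap.proj (𝟙 ⦋i⦌))) (j.app (op ⦋i⦌))
    refine ⟨⟨fun m => ModuleCat.ofHom (LinearMap.pi fun η => (M'.map η.op ≫ ψ).hom), ?_⟩, ?_⟩
    · intro m m' θ
      ext x
      funext η
      change ψ (M'.map η.op (M'.map θ x)) = ψ (M'.map (η ≫ θ.unop).op x)
      rw [op_comp, Functor.map_comp]
      rfl
    · ext m x
      funext η
      change (j.app m ≫ M'.map η.op ≫ ψ) x = φ.app m x η
      rw [← j.naturality_assoc, hψ, φ.naturality_assoc]
      exact congrArg (φ.app m x) (Category.id_comp η)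

/-- The map classifying a cochain. -/
def coC {Z : SSet.{0}} {i : ℕ} (κ : Z _⦋i⦌ → F) : Z ⟶ und (Cn i) where
  app m := ↾fun z η => κ (Z.map η.op z)
  naturality m m' θ := by
    ext z
    funext η
    exact congrArg κ (Functor.map_comp_apply Z θ η.op z).symm

/-- The map classifying a cocycle. -/
def coZ {Z : SSet.{0}} {i : ℕ} (l : Z _⦋i⦌ → F) (hl : IsCoc l) : Z ⟶ und (Zn i) where
  app m := ↾fun z => ⟨fun η => l (Z.map η.op z), fun η => by
    have := hl (Z.map η.op z)
    simpa only [cob, SimplicialObject.δ, ← Functor.map_comp_apply, ← op_comp] using this⟩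
  naturality m m' θ := by
    ext z
    apply Subtype.ext
    funext η
    exact congrArg l (Functor.map_comp_apply Z θ η.op z).symm

theorem exists_nontriv {p : ℕ} (hp : p = 0 ∨ p = 1) :
    ¬ IsCob (Z := und (Zn (p + 1))) (fun c => c.1 (𝟙 ⦋p + 1⦌)) := by
  rintro ⟨κ, hκ⟩
  let w : (Zn (p + 1)).obj (op ⦋p + 1⦌) :=
    ⟨fun η => if ∀ k, η.toOrderHom k = k then 1 else 0, fun η => by
      have key : ∀ f : Fin (p + 3) → Fin (p + 2), (∀ a b, a ≤ b → f a ≤ f b) →
          ∑ j : Fin (p + 3), (if ∀ k, f (j.succAbove k) = k then 1 else 0 : F) = 0 := by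
        rcases hp with rfl | rfl <;> decide
      exact key η.toOrderHom η.toOrderHom.monotone⟩
  have h1 := hκ w
  have h0 := hκ (0 : (Zn (p + 1)).obj (op ⦋p + 1⦌))
  have h2 : cob κ w = cob κ (0 : (Zn (p + 1)).obj (op ⦋p + 1⦌)) := by
    refine Finset.sum_congr rfl fun i _ => congrArg κ ?_
    apply Subtype.ext
    funext η
    exact if_neg fun h => Fin.succAbove_ne i _ (h i)
  have h3 : (1 : F) = 0 := by
    refine Eq.trans ?_ (h1.trans (h2.trans h0.symm))
    exact (if_pos fun _ => rfl).symm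
  exact one_ne_zero h3

section

variable {X E Y : SV} {s : SES X E Y} {p : ℕ} (d : Cmp s (sesC p))

/-- The fundamental cocycle. -/
def Cmp.u (y : und Y _⦋p + 1⦌) : F := (d.a.app _ y).1 (𝟙 _)

theorem Cmp.a_apply {m : SimplexCategoryᵒᵖ} (y : Y.obj m) (η : ⦋p + 1⦌ ⟶ m.unop) :
    (d.a.app m y).1 η = d.u (Y.map η.op y) := by
  have := ConcreteCategory.congr_hom (d.a.naturality η.op) y
  refine Eq.trans ?_ (congrArg (fun c : (Zn (p + 1)).obj _ => c.1 (𝟙 _)) this).symm
  exact congrArg (d.a.app m y).1 (Category.id_comp η).symm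

theorem Cmp.coc : IsCoc d.u := fun y => by
  refine Eq.trans ?_ ((d.a.app _ y).2 (𝟙 _))
  refine Finset.sum_congr rfl fun j _ => ?_
  rw [d.a_apply, Category.comp_id]
  rfl

theorem Cmp.surj (Z : SSet.{0}) (l : Z _⦋p + 1⦌ → F) (hl : IsCoc l) :
    ∃ f : Z ⟶ und Y, IsCob (fun z => l z + d.u (f.app _ z)) := by
  refine ⟨coZ l hl ≫ Functor.whiskerRight d.b (forget _),
    fun x => d.c.app _ ((coZ l hl).app _ x) (𝟙 _), fun z => ?_⟩
  have h1 := congrArg (fun c : (Zn (p + 1)).obj _ => c.1 (𝟙 _))
    (ConcreteCategory.congr_hom (congrArg (fun φ => NatTrans.app φ (op ⦋p + 1⦌)) d.ba)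
      ((coZ l hl).app _ z))
  change d.u (d.b.app _ ((coZ l hl).app _ z)) - l (Z.map (𝟙 _) z) =
    ∑ j : Fin (p + 2), d.c.app _ ((coZ l hl).app _ z) (SimplexCategory.δ j ≫ 𝟙 _) at h1
  rw [Functor.map_id_apply] at h1
  change l z + d.u (d.b.app _ ((coZ l hl).app _ z)) = _
  rw [add_comm, ← neg_neg (l z), ← sub_eq_add_neg, neg_eq_iff_add_eq_zero.2 (add_self (l z)), h1]
  refine Finset.sum_congr rfl fun j _ => ?_
  have h2 := SSet.δ_naturality_apply (coZ l hl ≫ Functor.whiskerRight d.c (forget _)) j z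
  refine Eq.trans ?_ (congrArg (fun c : (Cn p).obj _ => c (𝟙 _)) h2).symm
  exact congrArg (d.c.app _ ((coZ l hl).app _ z)) (by simp)

theorem Cmp.htpy (c : Contr E) (Z : SSet.{0}) (f g : Z ⟶ und Y)
    (h : IsCob (fun z => d.u (f.app _ z) + d.u (g.app _ z))) : Htpy f g := by
  obtain ⟨κ, hκ⟩ := h
  let k : ∀ m, Z.obj m → E.obj m := fun m z =>
    d.b₁.app m ((coC κ).app m z) - d.e.app m ((f.app m z : Y.obj m) + g.app m z)
  have hf : ∀ (f : Z ⟶ und Y) {m m' : SimplexCategoryᵒᵖ} (θ : m ⟶ m') (z : Z.obj m),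
      f.app m' (Z.map θ z) = Y.map θ (f.app m z) := fun f m m' θ z =>
    ConcreteCategory.congr_hom (f.naturality θ) z
  have hk : ∀ {m m' : SimplexCategoryᵒᵖ} (θ : m ⟶ m') (z : Z.obj m),
      k m' (Z.map θ z) = E.map θ (k m z) := fun {m m'} θ z => by
    have e1 : (coC κ).app m' (Z.map θ z) = (Cn p).map θ ((coC κ).app m z) :=
      ConcreteCategory.congr_hom ((coC κ).naturality θ) z
    have e2 := ConcreteCategory.congr_hom (d.b₁.naturality θ) ((coC κ).app m z)
    have e3 := ConcreteCategory.congr_hom (d.e.naturality θ) ((f.app m z : Y.obj m) + g.app m z)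
    simp only [ConcreteCategory.comp_apply] at e2 e3
    simp only [k, map_sub, hf f, hf g, e1, ← map_add, e2, e3]
  have hπ : ∀ m (z : Z.obj m), s.π.app m (k m z) = (f.app m z : Y.obj m) + g.app m z := by
    intro m z
    have e1 : d.a.app m ((f.app m z : Y.obj m) + g.app m z) =
        (sesC p).π.app m ((coC κ).app m z) := by
      apply Subtype.ext
      funext η
      rw [map_add]
      change (d.a.app m _).1 η + (d.a.app m _).1 η = _
      rw [d.a_apply, d.a_apply, ← hf f, ← hf g]
      refine (hκ _).trans (Finset.sum_congr rfl fun j _ => congrArg κ ?_)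
      exact (Functor.map_comp_apply Z η.op (SimplexCategory.δ j).op z).symm
    have e2 := ConcreteCategory.congr_hom (congrArg (fun φ => NatTrans.app φ m) d.ab)
      ((f.app m z : Y.obj m) + g.app m z)
    have e3 := ConcreteCategory.congr_hom (congrArg (fun φ => NatTrans.app φ m) d.sq)
      ((coC κ).app m z)
    change d.b.app m (d.a.app m _) - _ = s.π.app m (d.e.app m _) at e2
    change d.b.app m ((sesC p).π.app m _) = s.π.app m (d.b₁.app m _) at e3
    rw [e1, e3] at e2
    simp only [k, map_sub, ← e2]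
    exact sub_sub_cancel _ _
  refine ⟨⟨fun m => ↾fun x => (f.app m x.1 : Y.obj m) + s.π.app m (c.H m x.2 (k m x.1)), ?_⟩,
    ?_, ?_⟩
  · intro m m' θ
    ext x
    change (f.app m' (Z.map θ x.1) : Y.obj m') +
      s.π.app m' (c.H m' ((Δ[1] : SSet.{0}).map θ x.2) (k m' (Z.map θ x.1))) =
        Y.map θ ((f.app m x.1 : Y.obj m) + s.π.app m (c.H m x.2 (k m x.1)))
    have e1 := ConcreteCategory.congr_hom (s.π.naturality θ) (c.H m x.2 (k m x.1))
    simp only [ConcreteCategory.comp_apply] at e1
    rw [hf f, hk, c.nat, map_add, e1]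
  · ext m z
    change (f.app m z : Y.obj m) + s.π.app m (c.H m _ (k m z)) = f.app m z
    rw [c.zero m _ _ (fun _ => rfl), map_zero, add_zero]
  · ext m z
    change (f.app m z : Y.obj m) + s.π.app m (c.H m _ (k m z)) = g.app m z
    rw [c.one m _ _ (fun _ => rfl), hπ, ← add_assoc, add_self, zero_add]

/-- The Eilenberg-MacLane structure given by comparison data. -/
def Cmp.em (c : Contr E) (hp : p = 0 ∨ p = 1) : EM (und Y) p where
  u := d.u
  coc := d.coc
  surj := d.surj
  htpy Z f g := ⟨fun h => h.isCob d.coc, d.htpy c Z f g⟩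
  nontriv h := by
    have hl : IsCoc (Z := und (Zn (p + 1))) (fun c => c.1 (𝟙 ⦋p + 1⦌)) := fun c => by
      refine Eq.trans ?_ (c.2 (𝟙 _))
      refine Finset.sum_congr rfl fun j _ => congrArg c.1 ?_
      simp
    obtain ⟨f, hf⟩ := d.surj _ _ hl
    refine exists_nontriv hp ((hf.add (h.comp f)).congr fun z => ?_)
    rw [add_assoc, add_self, add_zero]

end

/-- Transport along an isomorphism. -/
def EM.ofIso {S S' : SSet.{0}} {p : ℕ} (E : EM S p) (e : S ≅ S') : EM S' p where
  u y := E.u (e.inv.app _ y)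
  coc := E.coc.comp e.inv
  surj Z l hl := by
    obtain ⟨f, hf⟩ := E.surj Z l hl
    refine ⟨f ≫ e.hom, hf.congr fun z => ?_⟩
    have : (f ≫ e.hom ≫ e.inv).app _ z = f.app _ z := by rw [e.hom_inv_id, Category.comp_id]
    rw [← this]
    rfl
  htpy Z f g := by
    refine Iff.trans ?_ (E.htpy Z (f ≫ e.inv) (g ≫ e.inv))
    constructor
    · rintro ⟨H, h0, h1⟩
      exact ⟨H ≫ e.inv, by rw [← h0, Category.assoc], by rw [← h1, Category.assoc]⟩
    · rintro ⟨H, h0, h1⟩
      exact ⟨H ≫ e.hom, by rw [← Category.assoc, h0]; simp, by rw [← Category.assoc, h1]; simp⟩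
  nontriv h := E.nontriv ((h.comp e.hom).congr fun z => by
    have : (e.hom ≫ e.inv).app _ z = z := by rw [e.hom_inv_id]; rfl
    exact congrArg E.u this)

end Pool.Agent.Lib.MP_339d31_lc
end

-- part Pool.Agent.Lib.MP_339d31_lc.Sing
section

/-! The singular complexes of the quotient groups are Eilenberg-MacLane complexes. -/

namespace Pool.Agent.Lib.MP_339d31_lc

open CategoryTheory Limits Opposite Simplicial

/-- Groups of exponent two. -/
class Two (A : Type) [AddCommGroup A] : Prop where
  add_self : ∀ a : A, a + a = 0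

instance : Two D := ⟨D.add_self⟩
instance {A : Type} [NormedAddCommGroup A] [Two A] : Two (LA A) := ⟨LA.add_self Two.add_self⟩
instance {A : Type} [NormedAddCommGroup A] [CompleteSpace A] [Two A] : Two (QA A) :=
  ⟨QA.add_self Two.add_self⟩

/-- The topological simplex. -/
abbrev TS (m : SimplexCategory) : Type := stdSimplex ℝ (Fin (m.len + 1))

/-- The map of topological simplices. -/
noncomputable def tsMap {m m' : SimplexCategory} (θ : m ⟶ m') : C(TS m, TS m') :=
  ⟨stdSimplex.map θ.toOrderHom, stdSimplex.continuous_map _⟩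

theorem tsMap_id (m : SimplexCategory) (t : TS m) : tsMap (𝟙 m) t = t :=
  stdSimplex.map_id_apply t

theorem tsMap_comp {m m' m'' : SimplexCategory} (θ : m ⟶ m') (θ' : m' ⟶ m'') (t : TS m) :
    tsMap (θ ≫ θ') t = tsMap θ' (tsMap θ t) :=
  (stdSimplex.map_comp_apply (S := ℝ) θ.toOrderHom θ'.toOrderHom t).symm

section

variable (A B : Type) [NormedAddCommGroup A] [Two A] [NormedAddCommGroup B] [Two B]

/-- Singular simplices. -/
def Sg (m : SimplexCategory) : Type := C(TS m, A)

instance (m : SimplexCategory) : AddCommGroup (Sg A m) :=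
  inferInstanceAs (AddCommGroup C(TS m, A))

instance (m : SimplexCategory) : Module F (Sg A m) :=
  AddCommGroup.zmodModule (n := 2) fun x => by
    rw [two_nsmul]
    exact ContinuousMap.ext fun t => Two.add_self _

/-- The singular complex as a simplicial vector space. -/
noncomputable def sing : SV where
  obj m := ModuleCat.of F (Sg A m.unop)
  map θ := ModuleCat.ofHom (AddMonoidHom.toZModLinearMap 2
    (AddMonoidHom.mk' (fun x => ContinuousMap.comp x (tsMap θ.unop)) fun _ _ => rfl))
  map_id m := by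
    ext x
    exact ContinuousMap.ext fun t => congrArg x.1 (tsMap_id _ t)
  map_comp θ θ' := by
    ext x
    exact ContinuousMap.ext fun t => congrArg x.1 (tsMap_comp _ _ t)

/-- The underlying simplicial set is the singular complex. -/
noncomputable def singIso : und (sing A) ≅ TopCat.toSSet.obj (TopCat.of A) :=
  NatIso.ofComponents (fun m => ((TopCat.of A).toSSetObjEquiv m).symm.toIso) fun _ => rfl

variable {A B}

/-- The map induced by a continuous homomorphism. -/
noncomputable def singMap (φ : A →+ B) (hφ : Continuous φ) : sing A ⟶ sing B where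
  app m := ModuleCat.ofHom (AddMonoidHom.toZModLinearMap 2
    (AddMonoidHom.mk' (fun x : Sg A m.unop => ContinuousMap.comp ⟨φ, hφ⟩ x)
      fun _ _ => ContinuousMap.ext fun _ => map_add φ _ _))
  naturality _ _ _ := rfl

/-- The linear contraction given by an additive contraction. -/
noncomputable def Trunc.contr (τ : Trunc A) : Contr (sing A) where
  H m σ := AddMonoidHom.toZModLinearMap 2 (AddMonoidHom.mk'
    (fun x : Sg A m.unop =>
      (⟨fun t => τ.h ((tsMap (SSet.stdSimplex.objEquiv σ) t).1 1) (x.1 t),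
        τ.cont.comp (((continuous_apply 1).comp (continuous_subtype_val.comp
          (tsMap _).continuous)).prodMk x.2)⟩ : C(TS m.unop, A)))
    fun _ _ => ContinuousMap.ext fun _ => map_add (τ.h _) _ _)
  nat θ σ x := ContinuousMap.ext fun t =>
    congrArg (fun s : TS ⦋1⦌ => τ.h (s.1 1) (x.1 (tsMap θ.unop t)))
      (tsMap_comp θ.unop (SSet.stdSimplex.objEquiv σ) t)
  zero m σ x h := ContinuousMap.ext fun t => by
    have : (tsMap (SSet.stdSimplex.objEquiv σ) t).1 1 = 0 := by
      refine (FunOnFinite.linearMap_apply_apply ℝ ℝ _ t.1 1).trans ?_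
      refine Finset.sum_eq_zero fun k hk => absurd ((h k).symm.trans (Finset.mem_filter.1 hk).2) ?_
      decide
    exact (congrArg (fun s => τ.h s (x.1 t)) this).trans (τ.zero _)
  one m σ x h := ContinuousMap.ext fun t => by
    have : (tsMap (SSet.stdSimplex.objEquiv σ) t).1 1 = 1 := by
      refine (FunOnFinite.linearMap_apply_apply ℝ ℝ _ t.1 1).trans ?_
      rw [Finset.filter_true_of_mem fun k _ => h k]
      exact t.2.2
    exact (congrArg (fun s => τ.h s (x.1 t)) this).trans (τ.one _)

/-- The short exact sequence of singular complexes. -/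
noncomputable def sesT [CompleteSpace A] {E' : Type} [NormedAddCommGroup E'] (τ' : Trunc E')
    (L : Loc (LA A) E' (QA A)) (hL : L.π = prj A) : SES (sing A) (sing (LA A)) (sing (QA A)) where
  ι := singMap (cst A) isometry_cst.continuous
  π := singMap (prj A) (hL ▸ L.cont_π)
  inj _ _ _ h := ContinuousMap.ext fun t =>
    isometry_cst.injective (congrArg (fun x : C(TS _, LA A) => x t) h)
  surj m y := by
    obtain ⟨g, hg⟩ := exists_lift (trunc A) τ' L (finDim_simplex _) y
    rw [hL] at hg
    exact ⟨g, ContinuousMap.ext hg⟩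
  zero := by
    ext m x
    exact ContinuousMap.ext fun t => prj_eq_zero.2 ⟨_, rfl⟩
  exact m e he := by
    choose a ha using fun t => prj_eq_zero.1 (congrArg (fun x : C(TS _, QA A) => x t) he)
    exact ⟨⟨a, isometry_cst.isEmbedding.continuous_iff.2 (e.2.congr fun t => (ha t).symm)⟩,
      ContinuousMap.ext ha⟩

end

theorem sg_const {m : SimplexCategory} (x : Sg D m) (t t' : TS m) : x.1 t = x.1 t' :=
  PreconnectedSpace.constant inferInstance x.2

theorem zsub_const {m : SimplexCategory} (c : zsub 0 m) (η η' : ⦋0⦌ ⟶ m) : c.1 η = c.1 η' := by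
  have key : ∀ η : ⦋0⦌ ⟶ m, c.1 η = c.1 (SimplexCategory.const _ _ 0) := fun η => by
    induction m using SimplexCategory.rec with | _ m => ?_
    have := c.2 (cone η)
    rw [Fin.sum_univ_two, δ_zero_cone] at this
    have h2 : SimplexCategory.δ (1 : Fin 2) ≫ cone η = SimplexCategory.const _ _ 0 := by
      ext j : 3
      fin_cases j
      rfl
    rw [h2] at this
    rw [eq_neg_of_add_eq_zero_left this, neg_eq_iff_add_eq_zero, add_self]
  rw [key, key η']

/-- The base comparison map. -/
noncomputable def baseA : sing D ⟶ Zn 0 where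
  app m := ModuleCat.ofHom (AddMonoidHom.toZModLinearMap 2 (AddMonoidHom.mk'
    (fun x : Sg D m.unop => (⟨fun _ => (x.1 (stdSimplex.vertex 0) : ZMod 2), fun η => by
      rw [Fin.sum_univ_two, add_self]⟩ : zsub 0 m.unop)) fun _ _ => rfl))
  naturality m m' θ := by
    ext x
    exact Subtype.ext (funext fun η => sg_const x _ _)

/-- The base comparison map. -/
noncomputable def baseB : Zn 0 ⟶ sing D where
  app m := ModuleCat.ofHom (AddMonoidHom.toZModLinearMap 2 (AddMonoidHom.mk'
    (fun c : zsub 0 m.unop =>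
      (ContinuousMap.const _ (c.1 (SimplexCategory.const _ _ 0) : D) : Sg D m.unop))
    fun _ _ => rfl))
  naturality m m' θ := by
    ext c
    exact ContinuousMap.ext fun t => zsub_const c _ _

theorem FI_zero {X Y : SV} {φ : X ⟶ Y} (h : φ = 0) : FI φ :=
  ⟨Cn 0, injective_Cn 0, 0, 0, by rw [h, zero_comp]⟩

theorem exists_cmp₁ : Nonempty (Cmp (sesT truncUnit loc₁ rfl) (sesC 0)) := by
  refine exists_cmp _ _ (trunc D).contr.injective (injective_Cn 0) baseA baseB
    (FI_zero (sub_eq_zero.2 ?_)) (FI_zero (sub_eq_zero.2 ?_))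
  · ext m x
    exact ContinuousMap.ext fun t => sg_const x _ _
  · ext m c
    exact Subtype.ext (funext fun η => zsub_const c _ _)

theorem exists_cmp₂ : Nonempty (Cmp (sesT (trunc D) loc₂ rfl) (sesC 1)) := by
  obtain ⟨d⟩ := exists_cmp₁
  exact exists_cmp _ _ (trunc (QA D)).contr.injective (injective_Cn 1) d.a d.b
    ⟨_, (trunc D).contr.injective, _, _, d.ab⟩ ⟨_, injective_Cn 0, _, _, d.ba⟩

theorem em₁ : Nonempty (EM (TopCat.toSSet.obj (TopCat.of (QA D))) 0) := by
  obtain ⟨d⟩ := exists_cmp₁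
  exact ⟨(d.em (trunc D).contr (Or.inl rfl)).ofIso (singIso _)⟩

theorem em₂ : Nonempty (EM (TopCat.toSSet.obj (TopCat.of (QA (QA D)))) 1) := by
  obtain ⟨d⟩ := exists_cmp₂
  exact ⟨(d.em (trunc (QA D)).contr (Or.inr rfl)).ofIso (singIso _)⟩

theorem trueIn_iff (φ : Fml 0) :
    TrueIn (TopCat.of (QA D)) φ ↔ TrueIn (TopCat.of (QA (QA D))) φ := by
  obtain ⟨E₁⟩ := em₁
  obtain ⟨E₂⟩ := em₂
  exact (E₁.nonempty_iff (Or.inl rfl) φ).trans (E₂.nonempty_iff (Or.inr rfl) φ).symm

end Pool.Agent.Lib.MP_339d31_lc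
end
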